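import Pool.Agent.H38R2.CG.N3
import Pool.Agent.H38R2.CG.N2
import Pool.Agent.H38R2.CG.N3b
import Pool.Agent.H38R2.CG.SPL
import Pool.Agent.H38R2.CG.KR
import Pool.Agent.H38R2.CG.PV
import Pool.Agent.H38R2.CG.N3a
import Pool.Agent.H38R2.CG.N0
import Pool.Agent.H38R2.CG.N0d

/-!
# The class number formula and the regulator of a real quadratic field
-/

set_option autoImplicit false

namespace Pool.Agent.U689.CN

open Finset Filter NumberField Pool.Agent.H38R2.CG

theorem n3a : P_N3a := T_N3a T_KR T_PV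

theorem n3 : P_N3 := T_N3 (T_N2 (T_SPL T_N0)) (T_N3b T_KR T_PV n3a)

theorem n2 : P_N2 := T_N2 (T_SPL T_N0)

section sig

variable {K : Type} [Field K] [NumberField K] {D : ℕ}

/-- the complex embedding of a real one -/
noncomputable def cx (ρ : K →+* ℝ) : K →+* ℂ := Complex.ofRealHom.comp ρ

theorem cx_real (ρ : K →+* ℝ) : ComplexEmbedding.IsReal (cx ρ) := by
  rw [ComplexEmbedding.isReal_iff]
  ext x
  simp [cx]

/-- the place of a real embedding -/
noncomputable def pl (ρ : K →+* ℝ) : InfinitePlace K := InfinitePlace.mk (cx ρ)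

theorem pl_apply (ρ : K →+* ℝ) (x : K) : pl ρ x = |ρ x| := by
  unfold pl
  rw [InfinitePlace.apply]
  simp [cx]

theorem pl_real (ρ : K →+* ℝ) : (pl ρ).IsReal :=
  InfinitePlace.isReal_mk_iff.2 (cx_real ρ)

theorem pl_inj {ρ ρ' : K →+* ℝ} (h : pl ρ = pl ρ') : ρ = ρ' := by
  unfold pl at h
  rw [InfinitePlace.mk_eq_iff] at h
  have h' : cx ρ = cx ρ' := by
    rcases h with h | h
    · exact h
    · rw [(ComplexEmbedding.isReal_iff).1 (cx_real ρ)] at h
      exact h
  ext x
  have := RingHom.congr_fun h' x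
  simpa [cx] using this

open scoped Classical in
theorem nrReal_pos (ρ : K →+* ℝ) : 0 < InfinitePlace.nrRealPlaces K :=
  Fintype.card_pos_iff.2 ⟨⟨pl ρ, pl_real ρ⟩⟩

theorem sig (ρ : K →+* ℝ) (h2 : Module.finrank ℚ K = 2) :
    InfinitePlace.nrRealPlaces K = 2 ∧ InfinitePlace.nrComplexPlaces K = 0 := by
  have h1 := nrReal_pos ρ
  have h3 := InfinitePlace.card_add_two_mul_card_eq_rank K
  rw [h2] at h3
  omega

theorem tors (ρ : K →+* ℝ) : Units.torsionOrder K = 2 := by
  have key : ∀ x : Units.torsion K, (x : (𝓞 K)ˣ) = 1 ∨ (x : (𝓞 K)ˣ) = -1 := by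
    intro x
    by_cases hc : 2 < orderOf (x : (𝓞 K)ˣ)
    · have h1 : IsPrimitiveRoot (x.1 : (𝓞 K)ˣ) (orderOf (x : (𝓞 K)ˣ)) := IsPrimitiveRoot.orderOf _
      have h2 : IsPrimitiveRoot (((x.1 : (𝓞 K)ˣ) : 𝓞 K)) (orderOf (x : (𝓞 K)ˣ)) :=
        h1.map_of_injective (f := Units.coeHom (𝓞 K)) Units.val_injective
      have h3 : IsPrimitiveRoot (algebraMap (𝓞 K) K ((x.1 : (𝓞 K)ˣ) : 𝓞 K))
          (orderOf (x : (𝓞 K)ˣ)) :=
        h2.map_of_injective (f := algebraMap (𝓞 K) K) RingOfIntegers.coe_injective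
      have := InfinitePlace.IsPrimitiveRoot.nrRealPlaces_eq_zero_of_two_lt hc h3
      have := nrReal_pos ρ
      omega
    · push Not at hc
      interval_cases hi : orderOf (x : (𝓞 K)ˣ)
      · linarith [orderOf_pos_iff.2 ((CommGroup.mem_torsion x.1).1 x.2)]
      · exact Or.intro_left _ (orderOf_eq_one_iff.1 hi)
      · rw [← orderOf_units, CharP.orderOf_eq_two_iff 0 (by decide)] at hi
        simp [← Units.val_inj, ← Units.val_inj, Units.val_neg, Units.val_one, hi]
  classical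
  let := Fintype.ofFinite (Units.torsion K)
  rw [Units.torsionOrder, Nat.card_eq_fintype_card]
  refine (Finset.card_eq_two.2 ⟨1, ⟨-1, _root_.neg_one_mem_torsion⟩,
    by simp [← Subtype.coe_ne_coe], Finset.ext fun x ↦ ⟨fun _ ↦ ?_, fun _ ↦ Finset.mem_univ _⟩⟩)
  rw [Finset.mem_insert, Finset.mem_singleton, ← Subtype.val_inj, ← Subtype.val_inj]
  exact key x

end sig

section main

variable {K : Type} [Field K] [NumberField K] {D : ℕ}

/-- the class number formula -/
theorem cnf (hD : IsFund D) (h2 : Module.finrank ℚ K = 2) (hd : discr K = (D : ℤ)) :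
    2 * Units.regulator K * (classNumber K : ℝ) = √(D : ℝ) * Lone D := by
  obtain ⟨e⟩ := T_N0 K D hD h2 hd
  obtain ⟨-, hall, -⟩ := n3 K D hD h2 hd
  have htop := N3h.lim_H K ⊤
  have htop' : Tendsto (fun N : ℕ => (Nat.card {I : nonZeroDivisors (Ideal (𝓞 K)) //
      Ideal.absNorm (I : Ideal (𝓞 K)) ≤ N} : ℝ) / N) atTop
      (nhds ((Nat.card (⊤ : Subgroup (ClassGroup (𝓞 K))) : ℝ) * N3h.kap K)) := by
    refine htop.congr ?_
    intro N
    simp only [Subgroup.mem_top, and_true]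
  have heq : Lone D = (Nat.card (⊤ : Subgroup (ClassGroup (𝓞 K))) : ℝ) * N3h.kap K :=
    tendsto_nhds_unique hall htop'
  have hc : Nat.card (⊤ : Subgroup (ClassGroup (𝓞 K))) = classNumber K := by
    rw [Subgroup.card_top, Nat.card_eq_fintype_card]
    rfl
  have hDp : 0 < √(D : ℝ) := by
    apply Real.sqrt_pos.2
    have := hD.1
    exact_mod_cast (by omega : 0 < D)
  obtain ⟨s1, s2⟩ := sig e.σ h2
  have hk : N3h.kap K = 2 * Units.regulator K / √(D : ℝ) := by
    unfold N3h.kap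
    rw [s1, s2, tors e.σ, hd]
    have : |(((D : ℕ) : ℤ) : ℝ)| = D := by
      rw [abs_of_nonneg (by positivity)]
      simp
    have h5 : ((|((D : ℕ) : ℤ)| : ℤ) : ℝ) = D := by rw [Int.cast_abs]; exact this
    try rw [Int.cast_abs]
    rw [this]
    field_simp
    push_cast
    ring
  rw [heq, hc, hk]
  field_simp

end main

end Pool.Agent.U689.CN
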