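import Pool.Agent.U689.CN.A

/-!
# The regulator of a real quadratic field is the logarithm of a unit
-/

set_option autoImplicit false

namespace Pool.Agent.U689.CN

open Finset Filter NumberField Pool.Agent.H38R2.CG

variable {K : Type} [Field K] [NumberField K] {D : ℕ}

open scoped Classical in
theorem reg_abs (σ τ : K →+* ℝ) (hne : σ ≠ τ) (h2 : Module.finrank ℚ K = 2) :
    ∃ ε : (𝓞 K)ˣ, Units.regulator K = |(Real.log (|σ (ε : K)|))| := by
  have hw : pl σ ≠ pl τ := fun h => hne (pl_inj h)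
  have hcard : Fintype.card (InfinitePlace K) = 2 := by
    rw [InfinitePlace.card_eq_nrRealPlaces_add_nrComplexPlaces, (sig σ h2).1, (sig σ h2).2]
  have hrank : Units.rank K = 1 := by
    unfold Units.rank
    omega
  have hc1 : Fintype.card {w : InfinitePlace K // w ≠ pl τ} = 1 := by
    rw [Fintype.card_subtype_compl, hcard]
    simp
  have e' : {w : InfinitePlace K // w ≠ pl τ} ≃ Fin (Units.rank K) :=
    Fintype.equivOfCardEq (by rw [hc1, Fintype.card_fin, hrank])
  have h := Units.regulator_eq_det (K := K) (pl τ) e'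
  rw [Matrix.det_eq_elem_of_card_eq_one hc1 ⟨pl σ, hw⟩] at h
  refine ⟨Units.fundSystem K (e' ⟨pl σ, hw⟩), ?_⟩
  rw [h]
  simp only [Matrix.of_apply]
  rw [(pl_real σ).mult_eq_one, pl_apply]
  simp

theorem reg (hD : IsFund D) (h2 : Module.finrank ℚ K = 2) (hd : discr K = (D : ℤ)) :
    ∃ t u : ℕ, 0 < t ∧ 0 < u ∧
      ((t : ℤ) ^ 2 - (D : ℤ) * (u : ℤ) ^ 2 = 4 ∨ (t : ℤ) ^ 2 - (D : ℤ) * (u : ℤ) ^ 2 = -4) ∧
      Units.regulator K = Real.log (((t : ℝ) + (u : ℝ) * √(D : ℝ)) / 2) := by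
  obtain ⟨e⟩ := T_N0 K D hD h2 hd
  obtain ⟨ε, hε⟩ := reg_abs e.σ e.τ e.ne h2
  have hpos := Units.regulator_pos K
  obtain ⟨a, b, -, hσ, hτ⟩ := e.int1 (ε : 𝓞 K)
  have hD1 : 1 < D := hD.1
  have hD0 : (0 : ℝ) < D := by exact_mod_cast (by omega : 0 < D)
  have hs : √(D : ℝ) ^ 2 = D := Real.sq_sqrt hD0.le
  have hsp : 0 < √(D : ℝ) := Real.sqrt_pos.2 hD0
  -- the norm
  have hn : e.σ (ε : K) * e.τ (ε : K) = 1 ∨ e.σ (ε : K) * e.τ (ε : K) = -1 := by
    have h1 := e.nrm (ε : K)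
    have h3 : |Algebra.norm ℚ (ε : K)| = 1 := Units.norm K ε
    have h4 : |e.σ (ε : K) * e.τ (ε : K)| = 1 := by
      rw [← h1]
      exact_mod_cast h3
    rcases abs_eq (by norm_num : (0 : ℝ) ≤ 1) |>.1 h4 with h | h
    · exact Or.inl h
    · exact Or.inr h
  have hprod : e.σ (ε : K) * e.τ (ε : K) = ((a : ℝ) ^ 2 - D * (b : ℝ) ^ 2) / 4 := by
    rw [hσ, hτ]
    linear_combination (-(b : ℝ) ^ 2 / 4) * hs
  have hz : a ^ 2 - (D : ℤ) * b ^ 2 = 4 ∨ a ^ 2 - (D : ℤ) * b ^ 2 = -4 := by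
    rcases hn with h | h
    · left
      have : ((a ^ 2 - (D : ℤ) * b ^ 2 : ℤ) : ℝ) = 4 := by push_cast; linarith
      exact_mod_cast this
    · right
      have : ((a ^ 2 - (D : ℤ) * b ^ 2 : ℤ) : ℝ) = -4 := by push_cast; linarith
      exact_mod_cast this
  have hb : b ≠ 0 := by
    rintro rfl
    have h5 : a ^ 2 = 4 := by
      rcases hz with h | h
      · linarith
      · nlinarith [sq_nonneg a]
    have h6 : (a : ℝ) = 2 ∨ (a : ℝ) = -2 := by
      have : (a - 2) * (a + 2) = 0 := by linarith [h5]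
      rcases mul_eq_zero.1 this with h | h
      · left; have : a = 2 := by linarith
        rw [this]; norm_num
      · right; have : a = -2 := by linarith
        rw [this]; norm_num
    rw [hε, hσ] at hpos
    rcases h6 with h | h <;> rw [h] at hpos <;> norm_num at hpos
  have ha : a ≠ 0 := by
    rintro rfl
    have h5 : (D : ℤ) * b ^ 2 = 4 := by
      rcases hz with h | h
      · nlinarith [mul_nonneg (Int.natCast_nonneg D) (sq_nonneg b)]
      · linarith
    have hb1 : 1 ≤ b ^ 2 := by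
      have := sq_nonneg b
      have h0 : b ^ 2 ≠ 0 := pow_ne_zero 2 hb
      omega
    rcases hD.2 with ⟨h1, -⟩ | ⟨m, hm, hm2, -⟩
    · have h7 : D ≤ 4 := by
        by_contra hh
        push Not at hh
        have : (5 : ℤ) ≤ D := by exact_mod_cast hh
        nlinarith
      interval_cases D <;> omega
    · have hm1 : 2 ≤ m := by omega
      have : (8 : ℤ) ≤ D := by rw [hm]; push_cast; omega
      nlinarith
  refine ⟨a.natAbs, b.natAbs, Int.natAbs_pos.2 ha, Int.natAbs_pos.2 hb, ?_, ?_⟩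
  · rw [Int.natAbs_sq, Int.natAbs_sq]
    exact hz
  · rw [hε]
    have ea : ((a.natAbs : ℕ) : ℝ) = |(a : ℝ)| := by
      rw [Nat.cast_natAbs, Int.cast_abs]
    have eb : ((b.natAbs : ℕ) : ℝ) = |(b : ℝ)| := by
      rw [Nat.cast_natAbs, Int.cast_abs]
    rw [ea, eb]
    have ha' : 1 ≤ |(a : ℝ)| := by
      have : 1 ≤ |a| := Int.one_le_abs ha
      exact_mod_cast this
    have hb' : 1 ≤ |(b : ℝ)| := by
      have : 1 ≤ |b| := Int.one_le_abs hb
      exact_mod_cast this
    set w : ℝ := (|(a : ℝ)| + |(b : ℝ)| * √(D : ℝ)) / 2 with hw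
    have hw1 : 1 ≤ w := by
      have : 1 ≤ √(D : ℝ) := by
        rw [Real.one_le_sqrt]
        exact_mod_cast hD1.le
      nlinarith
    -- |σ ε| is w or 1 / w
    have hcase : |e.σ (ε : K)| = w ∨ |e.τ (ε : K)| = w := by
      rw [hσ, hτ]
      rcases abs_cases (a : ℝ) with ⟨h1, h1'⟩ | ⟨h1, h1'⟩ <;>
      rcases abs_cases (b : ℝ) with ⟨h3, h3'⟩ | ⟨h3, h3'⟩
      · left
        rw [hw, h1, h3, abs_of_nonneg (by positivity)]
      · right
        have : ((a : ℝ) - b * √(D : ℝ)) / 2 = w := by rw [hw, h1, h3]; ring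
        rw [this, abs_of_nonneg (by linarith)]
      · right
        have : ((a : ℝ) - b * √(D : ℝ)) / 2 = -w := by rw [hw, h1, h3]; ring
        rw [this, abs_neg, abs_of_nonneg (by linarith)]
      · left
        have : ((a : ℝ) + b * √(D : ℝ)) / 2 = -w := by rw [hw, h1, h3]; ring
        rw [this, abs_neg, abs_of_nonneg (by linarith)]
    have hpr : |e.σ (ε : K)| * |e.τ (ε : K)| = 1 := by
      rw [← abs_mul]
      rcases hn with h | h <;> rw [h] <;> norm_num
    have hlw : 0 ≤ Real.log w := Real.log_nonneg hw1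
    rcases hcase with h | h
    · rw [h, abs_of_nonneg hlw]
    · have h8 : |e.σ (ε : K)| = w⁻¹ := by
        rw [h] at hpr
        exact eq_inv_of_mul_eq_one_left hpr
      rw [h8, Real.log_inv, abs_neg, abs_of_nonneg hlw]

end Pool.Agent.U689.CN
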