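import Pool.Agent.U689.CN.A
import Pool.Agent.H38R2.CG.LM2

/-!
# Second moments of short character sums, part 1: the arithmetic of pairs with square product
-/

set_option autoImplicit false

namespace Pool.Agent.U689.CN

open Finset Filter Pool.Agent.H38R2.CG
open scoped Classical

/-- the exponent of two -/
def vt (n : ℕ) : ℕ := padicValNat 2 n

/-- odd part -/
def od (n : ℕ) : ℕ := n / 2 ^ padicValNat 2 n

theorem od_eq {n : ℕ} (hn : 1 ≤ n) : 2 ^ vt n * od n = n ∧ Odd (od n) := by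
  have h1 : 2 ^ padicValNat 2 n ∣ n := pow_padicValNat_dvd
  have h2 : ¬ 2 ^ (padicValNat 2 n + 1) ∣ n := pow_succ_padicValNat_not_dvd (by omega)
  have h3 : 2 ^ vt n * od n = n := Nat.mul_div_cancel' h1
  refine ⟨h3, ?_⟩
  rw [← Nat.not_even_iff_odd]
  rintro ⟨k, hk⟩
  apply h2
  refine ⟨k, ?_⟩
  rw [← h3, hk]
  unfold vt
  rw [pow_succ]
  have : (2 : ℕ) ^ padicValNat 2 (2 ^ vt n * (k + k)) = 2 ^ padicValNat 2 n := by
    rw [← hk, h3]
  simp only [vt] at this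
  rw [this]
  ring

theorem od_pos {n : ℕ} (hn : 1 ≤ n) : 1 ≤ od n := by
  have h := (od_eq hn).2
  rcases h with ⟨k, hk⟩
  omega

theorem od_le {n : ℕ} (hn : 1 ≤ n) : od n ≤ n := Nat.div_le_self _ _

/-- squarefree part -/
noncomputable def sf (n : ℕ) : ℕ := (Nat.sq_mul_squarefree (od n)).choose

/-- the root of the square part -/
noncomputable def sb (n : ℕ) : ℕ := (Nat.sq_mul_squarefree (od n)).choose_spec.choose

theorem sf_spec (n : ℕ) : sb n ^ 2 * sf n = od n ∧ Squarefree (sf n) :=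
  (Nat.sq_mul_squarefree (od n)).choose_spec.choose_spec

theorem n_eq {n : ℕ} (hn : 1 ≤ n) : n = 2 ^ vt n * (sb n ^ 2 * sf n) := by
  rw [(sf_spec n).1, (od_eq hn).1]

theorem eq_of_sq {s t : ℕ} (hs : Squarefree s) (ht : Squarefree t) (h : IsSquare (s * t)) :
    s = t := by
  obtain ⟨k, hk⟩ := h
  have h1 : s ∣ k := by
    have : s ∣ k ^ 2 := ⟨t, by rw [pow_two, ← hk]⟩
    exact (hs.dvd_pow_iff_dvd (by norm_num)).1 this
  obtain ⟨m, rfl⟩ := h1
  have hs0 : 0 < s := Nat.pos_of_ne_zero hs.ne_zero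
  have h2 : t = s * (m * m) := by
    have : s * t = s * (s * (m * m)) := by rw [hk]; ring
    exact Nat.eq_of_mul_eq_mul_left hs0 this
  have h3 : IsUnit m := ht m ⟨s, by rw [h2]; ring⟩
  rw [Nat.isUnit_iff] at h3
  rw [h2, h3]
  ring

theorem sf_eq {m n : ℕ} (hm : 1 ≤ m) (hn : 1 ≤ n) (h : IsSquare (od m * od n)) : sf m = sf n := by
  apply eq_of_sq (sf_spec m).2 (sf_spec n).2
  obtain ⟨k, hk⟩ := h
  have h1 := (sf_spec m).1
  have h2 := (sf_spec n).1
  have hk2 : (sb m * sb n) ^ 2 * (sf m * sf n) = k ^ 2 := by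
    rw [pow_two k, ← hk, ← h1, ← h2]; ring
  have hd : sb m * sb n ∣ k := by
    have : (sb m * sb n) ^ 2 ∣ k ^ 2 := ⟨_, hk2.symm⟩
    exact (Nat.pow_dvd_pow_iff (by norm_num)).1 this
  obtain ⟨l, rfl⟩ := hd
  refine ⟨l, ?_⟩
  have hp : 0 < (sb m * sb n) ^ 2 := by
    have h3 := od_pos hm
    have h4 := od_pos hn
    have h5 : sb m ≠ 0 := by
      intro h0; rw [h0] at h1; simp at h1; omega
    have h6 : sb n ≠ 0 := by
      intro h0; rw [h0] at h2; simp at h2; omega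
    positivity
  apply Nat.eq_of_mul_eq_mul_left hp
  rw [hk2]; ring

/-- the weight `k ^ (-3/4)` -/
noncomputable def g (k : ℕ) : ℝ := (k : ℝ) ^ (-(3 / 4) : ℝ)

theorem g_nonneg (k : ℕ) : 0 ≤ g k := Real.rpow_nonneg (by positivity) _

theorem g_mul (a b : ℕ) : g (a * b) = g a * g b := by
  unfold g
  rw [Nat.cast_mul, Real.mul_rpow (by positivity) (by positivity)]

theorem g_one : g 1 = 1 := by unfold g; simp

theorem g_pow (a : ℕ) (k : ℕ) : g (a ^ k) = g a ^ k := by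
  induction k with
  | zero => simp [g_one]
  | succ k ih => rw [pow_succ, pow_succ, g_mul, ih]

theorem g_eq {n : ℕ} (hn : 1 ≤ n) : g n = g 2 ^ vt n * (g (sb n) ^ 2 * g (sf n)) := by
  conv_lhs => rw [n_eq hn]
  rw [g_mul, g_pow, g_mul, g_pow]

theorem g2_lt : g 2 < 1 := by
  unfold g
  exact Real.rpow_lt_one_of_one_lt_of_neg (by norm_num) (by norm_num)

/-- `∑ 2 ^ (-3 i / 4)` -/
theorem sum_geo (N : ℕ) : ∑ i ∈ range N, g 2 ^ i ≤ (1 - g 2)⁻¹ := by
  have h := Summable.sum_le_tsum (range N) (fun i _ => pow_nonneg (g_nonneg 2) i)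
    (summable_geometric_of_lt_one (g_nonneg 2) g2_lt)
  rw [tsum_geometric_of_lt_one (g_nonneg 2) g2_lt] at h
  exact h

/-- the constant -/
noncomputable def Ac : ℝ := ∑' k : ℕ, g k ^ 2

theorem g_sq (k : ℕ) : g k ^ 2 = 1 / (k : ℝ) ^ (3 / 2 : ℝ) := by
  unfold g
  rw [← Real.rpow_natCast, ← Real.rpow_mul (by positivity), one_div, ← Real.rpow_neg (by positivity)]
  norm_num

theorem summ : Summable (fun k : ℕ => g k ^ 2) := by
  simp_rw [g_sq]
  exact Real.summable_one_div_nat_rpow.2 (by norm_num)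

theorem sum_sq (N : ℕ) : ∑ k ∈ range N, g k ^ 2 ≤ Ac :=
  Summable.sum_le_tsum (range N) (fun k _ => pow_nonneg (g_nonneg k) 2) summ

theorem Ac_nonneg : 0 ≤ Ac := tsum_nonneg (fun k => pow_nonneg (g_nonneg k) 2)

/-- injection into the box -/
theorem inj (Z : ℕ) (S : Finset ℕ) (hS : ∀ n ∈ S, 1 ≤ n ∧ n ≤ Z) (H : ℕ → ℕ → ℕ → ℝ)
    (hH : ∀ s i a, 0 ≤ H s i a) :
    ∑ n ∈ S, H (sf n) (vt n) (sb n) ≤
      ∑ s ∈ range (Z + 1), ∑ i ∈ range (Z + 1), ∑ a ∈ range (Z + 1), H s i a := by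
  have hinj : Set.InjOn (fun n => (sf n, vt n, sb n)) (S : Set ℕ) := by
    intro m hm n hn h
    simp only [Prod.mk.injEq] at h
    rw [n_eq (hS m hm).1, n_eq (hS n hn).1, h.1, h.2.1, h.2.2]
  have h1 : ∑ n ∈ S, H (sf n) (vt n) (sb n) =
      ∑ t ∈ S.image (fun n => (sf n, vt n, sb n)), H t.1 t.2.1 t.2.2 := by
    rw [Finset.sum_image (fun x hx y hy h => hinj hx hy h)]
  rw [h1]
  have h2 : ∑ s ∈ range (Z + 1), ∑ i ∈ range (Z + 1), ∑ a ∈ range (Z + 1), H s i a =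
      ∑ t ∈ range (Z + 1) ×ˢ (range (Z + 1) ×ˢ range (Z + 1)), H t.1 t.2.1 t.2.2 := by
    rw [Finset.sum_product]
    apply Finset.sum_congr rfl
    intro s _
    rw [Finset.sum_product]
  rw [h2]
  apply Finset.sum_le_sum_of_subset_of_nonneg
  · intro t ht
    rw [Finset.mem_image] at ht
    obtain ⟨n, hn, rfl⟩ := ht
    obtain ⟨hn1, hnZ⟩ := hS n hn
    have e := n_eq hn1
    have hodp := od_pos hn1
    have hodl := od_le hn1
    have h3 := (sf_spec n).1
    have hsb : sb n ≠ 0 := by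
      intro h0; rw [h0] at h3; simp at h3; omega
    have hsf : sf n ≠ 0 := by
      intro h0; rw [h0] at h3; simp at h3; omega
    have k1 : sf n ≤ od n := by
      rw [← h3]
      exact Nat.le_mul_of_pos_left _ (by positivity)
    have k2 : sb n ≤ od n := by
      rw [← h3]
      calc sb n ≤ sb n ^ 2 := Nat.le_self_pow (by norm_num) _
        _ ≤ sb n ^ 2 * sf n := Nat.le_mul_of_pos_right _ (Nat.pos_of_ne_zero hsf)
    have k3 : vt n < n := by
      calc vt n < 2 ^ vt n := Nat.lt_two_pow_self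
        _ ≤ 2 ^ vt n * od n := Nat.le_mul_of_pos_right _ (by omega)
        _ = n := (od_eq hn1).1
    simp only [Finset.mem_product, Finset.mem_range]
    omega
  · intro t _ _
    exact hH _ _ _

/-- fixed squarefree part -/
theorem fib (Z : ℕ) (S : Finset ℕ) (hS : ∀ n ∈ S, 1 ≤ n ∧ n ≤ Z) (s : ℕ) :
    ∑ n ∈ S.filter (fun n => sf n = s), g n ≤ g s * ((1 - g 2)⁻¹ * Ac) := by
  have hB : 0 ≤ (1 - g 2)⁻¹ := inv_nonneg.2 (by linarith [g2_lt])
  have h1 : ∑ n ∈ S.filter (fun n => sf n = s), g n =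
      ∑ n ∈ S, (if sf n = s then g s * (g 2 ^ vt n * g (sb n) ^ 2) else 0) := by
    rw [Finset.sum_filter]
    apply Finset.sum_congr rfl
    intro n hn
    by_cases h : sf n = s
    · rw [if_pos h, if_pos h, g_eq (hS n hn).1, h]
      ring
    · rw [if_neg h, if_neg h]
  rw [h1]
  refine (inj Z S hS (fun s' i a => if s' = s then g s * (g 2 ^ i * g a ^ 2) else 0) ?_).trans ?_
  · intro s' i a
    split_ifs
    · exact mul_nonneg (g_nonneg s) (mul_nonneg (pow_nonneg (g_nonneg 2) i)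
        (pow_nonneg (g_nonneg a) 2))
    · exact le_refl _
  · have h2 : ∀ s' : ℕ, ∑ i ∈ range (Z + 1), ∑ a ∈ range (Z + 1),
        (if s' = s then g s * (g 2 ^ i * g a ^ 2) else 0) =
        if s' = s then g s * ((∑ i ∈ range (Z + 1), g 2 ^ i) * ∑ a ∈ range (Z + 1), g a ^ 2)
          else 0 := by
      intro s'
      split_ifs with h
      · rw [Finset.sum_mul_sum, Finset.mul_sum]
        apply Finset.sum_congr rfl
        intro i _
        rw [Finset.mul_sum]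
      · simp
    show ∑ s' ∈ range (Z + 1), ∑ i ∈ range (Z + 1), ∑ a ∈ range (Z + 1),
        (if s' = s then g s * (g 2 ^ i * g a ^ 2) else 0) ≤ _
    rw [Finset.sum_congr rfl (fun s' _ => h2 s')]
    have h3 : g s * ((∑ i ∈ range (Z + 1), g 2 ^ i) * ∑ a ∈ range (Z + 1), g a ^ 2) ≤
        g s * ((1 - g 2)⁻¹ * Ac) := by
      apply mul_le_mul_of_nonneg_left _ (g_nonneg s)
      exact mul_le_mul (sum_geo _) (sum_sq _)
        (Finset.sum_nonneg fun a _ => pow_nonneg (g_nonneg a) 2) hB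
    rw [Finset.sum_ite_eq' ]
    split_ifs
    · exact h3
    · exact mul_nonneg (g_nonneg s) (mul_nonneg hB Ac_nonneg)

/-- all pairs with equal squarefree parts -/
theorem pairs (Z : ℕ) (S : Finset ℕ) (hS : ∀ n ∈ S, 1 ≤ n ∧ n ≤ Z) :
    ∑ m ∈ S, ∑ n ∈ S, (if IsSquare (od m * od n) then g m * g n else 0) ≤
      ((1 - g 2)⁻¹ * Ac) ^ 2 * Ac := by
  set E : ℝ := (1 - g 2)⁻¹ * Ac with hE
  have hB : 0 ≤ (1 - g 2)⁻¹ := inv_nonneg.2 (by linarith [g2_lt])
  have hE0 : 0 ≤ E := mul_nonneg hB Ac_nonneg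
  have h1 : ∀ m ∈ S, ∑ n ∈ S, (if IsSquare (od m * od n) then g m * g n else 0) ≤
      g m * (g (sf m) * E) := by
    intro m hm
    have h2 : ∑ n ∈ S, (if IsSquare (od m * od n) then g m * g n else 0) ≤
        ∑ n ∈ S, (if sf n = sf m then g m * g n else 0) := by
      apply Finset.sum_le_sum
      intro n hn
      by_cases h : IsSquare (od m * od n)
      · rw [if_pos h, if_pos (sf_eq (hS m hm).1 (hS n hn).1 h).symm]
      · rw [if_neg h]
        split_ifs
        · exact mul_nonneg (g_nonneg _) (g_nonneg _)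
        · exact le_refl _
    refine h2.trans ?_
    rw [← Finset.sum_filter, ← Finset.mul_sum]
    exact mul_le_mul_of_nonneg_left (fib Z S hS (sf m)) (g_nonneg m)
  refine (Finset.sum_le_sum h1).trans ?_
  have h3 : ∑ m ∈ S, g m * (g (sf m) * E) =
      ∑ m ∈ S, E * (g (sf m) ^ 2 * (g 2 ^ vt m * g (sb m) ^ 2)) := by
    apply Finset.sum_congr rfl
    intro m hm
    rw [g_eq (hS m hm).1]
    ring
  rw [h3]
  refine (inj Z S hS (fun s i a => E * (g s ^ 2 * (g 2 ^ i * g a ^ 2))) ?_).trans ?_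
  · intro s i a
    exact mul_nonneg hE0 (mul_nonneg (pow_nonneg (g_nonneg s) 2) (mul_nonneg
      (pow_nonneg (g_nonneg 2) i) (pow_nonneg (g_nonneg a) 2)))
  · have h4 : ∑ s ∈ range (Z + 1), ∑ i ∈ range (Z + 1), ∑ a ∈ range (Z + 1),
        E * (g s ^ 2 * (g 2 ^ i * g a ^ 2)) =
        E * ((∑ s ∈ range (Z + 1), g s ^ 2) *
          ((∑ i ∈ range (Z + 1), g 2 ^ i) * ∑ a ∈ range (Z + 1), g a ^ 2)) := by
      rw [Finset.sum_mul_sum (range (Z + 1)) (range (Z + 1)) (fun i => g 2 ^ i) (fun a => g a ^ 2),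
        Finset.sum_mul, Finset.mul_sum]
      apply Finset.sum_congr rfl
      intro s _
      rw [Finset.mul_sum, Finset.mul_sum]
      apply Finset.sum_congr rfl
      intro i _
      rw [Finset.mul_sum, Finset.mul_sum]
    rw [h4]
    have h5 : (∑ i ∈ range (Z + 1), g 2 ^ i) * ∑ a ∈ range (Z + 1), g a ^ 2 ≤ E :=
      mul_le_mul (sum_geo _) (sum_sq _)
        (Finset.sum_nonneg fun a _ => pow_nonneg (g_nonneg a) 2) hB
    have h6 : 0 ≤ (∑ i ∈ range (Z + 1), g 2 ^ i) * ∑ a ∈ range (Z + 1), g a ^ 2 :=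
      mul_nonneg (Finset.sum_nonneg fun i _ => pow_nonneg (g_nonneg 2) i)
        (Finset.sum_nonneg fun a _ => pow_nonneg (g_nonneg a) 2)
    calc E * ((∑ s ∈ range (Z + 1), g s ^ 2) *
          ((∑ i ∈ range (Z + 1), g 2 ^ i) * ∑ a ∈ range (Z + 1), g a ^ 2)) ≤ E * (Ac * E) :=
          mul_le_mul_of_nonneg_left (mul_le_mul (sum_sq _) h5 h6 Ac_nonneg) hE0
      _ = E ^ 2 * Ac := by ring

end Pool.Agent.U689.CN
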