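import Pool.Agent.U689.CN.L1

/-!
# Second moments of short character sums, part 2: the second moment
-/

set_option autoImplicit false

namespace Pool.Agent.U689.CN

open Finset Filter Pool.Agent.H38R2.CG Pool.Agent.H38R2.CG.LM2h
open scoped Classical

/-- The short sum. -/
noncomputable def FF (c : ℤ) (y Z m : ℕ) : ℝ :=
  ∑ n ∈ Ioc y Z, (c : ℝ) ^ vt n * ((jacobiSym (m : ℤ) (od n) : ℤ) : ℝ) / n

/-- Pólya-Vinogradov for the Jacobi symbol -/
def PVC (C : ℝ) : Prop := 0 < C ∧ ∀ (q : ℕ) (χ : DirichletCharacter ℂ q), 2 ≤ q → χ ≠ 1 →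
    ∀ a b : ℕ, ‖∑ n ∈ Finset.Ioc a b, χ (n : ZMod q)‖ ≤ C * √(q : ℝ) * Real.log q

theorem exPVC : ∃ C : ℝ, PVC C := by
  obtain ⟨C, h1, h2⟩ := T_PV
  exact ⟨C, h1, h2⟩

theorem jac_sum {C : ℝ} (hC : PVC C) {M : ℕ} (hM : Odd M) (hsq : ¬ IsSquare M) (X : ℕ) :
    |∑ m ∈ Ioc 0 X, ((jacobiSym (m : ℤ) M : ℤ) : ℝ)| ≤ C * √(M : ℝ) * Real.log M := by
  have hm0 : M ≠ 0 := by rintro rfl; simp at hM
  have hm2 : 2 ≤ M := by
    by_contra h
    have : M = 1 := by omega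
    exact hsq (this ▸ ⟨1, rfl⟩)
  have : NeZero M := ⟨hm0⟩
  have h := hC.2 M (jch M) hm2 (jch_ne_one M hM hsq) 0 X
  have e : ∑ n ∈ Finset.Ioc 0 X, jch M (n : ZMod M) =
      ((∑ m ∈ Ioc 0 X, ((jacobiSym (m : ℤ) M : ℤ) : ℝ) : ℝ) : ℂ) := by
    push_cast
    apply Finset.sum_congr rfl
    intro n _
    rw [jch_apply]
  rw [e, Complex.norm_real] at h
  exact h

theorem pair_sum {C : ℝ} (hC : PVC C) {n1 n2 : ℕ} (h1 : 1 ≤ n1) (h2 : 1 ≤ n2) (X : ℕ) :
    |∑ m ∈ Ioc 0 X, ((jacobiSym (m : ℤ) (od n1) : ℤ) : ℝ) * ((jacobiSym (m : ℤ) (od n2) : ℤ) : ℝ)| ≤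
      (if IsSquare (od n1 * od n2) then (X : ℝ) else 0) +
        C * √((n1 : ℝ) * n2) * Real.log ((n1 : ℝ) * n2) := by
  have o1 := od_pos h1
  have o2 := od_pos h2
  have l1 := od_le h1
  have l2 := od_le h2
  have i1 : NeZero (od n1) := ⟨by omega⟩
  have i2 : NeZero (od n2) := ⟨by omega⟩
  have e : ∀ m : ℕ, ((jacobiSym (m : ℤ) (od n1) : ℤ) : ℝ) * ((jacobiSym (m : ℤ) (od n2) : ℤ) : ℝ) =
      ((jacobiSym (m : ℤ) (od n1 * od n2) : ℤ) : ℝ) := by
    intro m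
    rw [jacobiSym.mul_right]
    push_cast
    rfl
  simp only [e]
  have hn : (1 : ℝ) ≤ (n1 : ℝ) * n2 := by
    have a1 : (1 : ℝ) ≤ n1 := by exact_mod_cast h1
    have a2 : (1 : ℝ) ≤ n2 := by exact_mod_cast h2
    nlinarith
  have hC0 := hC.1
  have hlog := Real.log_nonneg hn
  have hlast : 0 ≤ C * √((n1 : ℝ) * n2) * Real.log ((n1 : ℝ) * n2) := by positivity
  by_cases h : IsSquare (od n1 * od n2)
  · rw [if_pos h]
    have : |∑ m ∈ Ioc 0 X, ((jacobiSym (m : ℤ) (od n1 * od n2) : ℤ) : ℝ)| ≤ X := by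
      refine (Finset.abs_sum_le_sum_abs _ _).trans ?_
      calc ∑ m ∈ Ioc 0 X, |((jacobiSym (m : ℤ) (od n1 * od n2) : ℤ) : ℝ)|
          ≤ ∑ m ∈ Ioc 0 X, (1 : ℝ) :=
            Finset.sum_le_sum (fun m _ => abs_jac (m : ℤ) (od n1 * od n2))
        _ = X := by simp
    linarith
  · rw [if_neg h, zero_add]
    have hodd : Odd (od n1 * od n2) := (od_eq h1).2.mul (od_eq h2).2
    refine (jac_sum hC hodd h X).trans ?_
    have hle : ((od n1 * od n2 : ℕ) : ℝ) ≤ (n1 : ℝ) * n2 := by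
      have : od n1 * od n2 ≤ n1 * n2 := Nat.mul_le_mul l1 l2
      exact_mod_cast this
    have hpos : (1 : ℝ) ≤ ((od n1 * od n2 : ℕ) : ℝ) := by
      have : 1 ≤ od n1 * od n2 := Nat.mul_pos o1 o2
      exact_mod_cast this
    have hl : Real.log ((od n1 * od n2 : ℕ) : ℝ) ≤ Real.log ((n1 : ℝ) * n2) :=
      Real.log_le_log (by linarith) hle
    have hs : √((od n1 * od n2 : ℕ) : ℝ) ≤ √((n1 : ℝ) * n2) := Real.sqrt_le_sqrt hle
    have hl0 : 0 ≤ Real.log ((od n1 * od n2 : ℕ) : ℝ) := Real.log_nonneg hpos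
    exact mul_le_mul (mul_le_mul_of_nonneg_left hs hC0.le) hl hl0 (by positivity)

theorem sqrt_sum (Z : ℕ) : ∑ n ∈ Ioc 0 Z, 1 / √(n : ℝ) ≤ 2 * √(Z : ℝ) := by
  induction Z with
  | zero => simp
  | succ Z ih =>
    have e : Ioc 0 (Z + 1) = insert (Z + 1) (Ioc 0 Z) := by
      ext x
      simp only [Finset.mem_Ioc, Finset.mem_insert]
      omega
    rw [e, Finset.sum_insert (by simp)]
    have hp : 0 < √((Z + 1 : ℕ) : ℝ) := Real.sqrt_pos.2 (by positivity)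
    have h1 : √((Z + 1 : ℕ) : ℝ) ^ 2 = (Z : ℝ) + 1 := by
      rw [Real.sq_sqrt (by positivity)]; push_cast; ring
    have h2 : √(Z : ℝ) ^ 2 = (Z : ℝ) := Real.sq_sqrt (by positivity)
    have h3 : 0 ≤ √(Z : ℝ) := Real.sqrt_nonneg _
    have h4 : 1 / √((Z + 1 : ℕ) : ℝ) ≤ 2 * √((Z + 1 : ℕ) : ℝ) - 2 * √(Z : ℝ) := by
      rw [div_le_iff₀ hp]
      nlinarith [sq_nonneg (√((Z + 1 : ℕ) : ℝ) - √(Z : ℝ))]
    linarith

/-- the second moment over all integers `m ≤ X` -/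
theorem second {C : ℝ} (hC : PVC C) {c : ℤ} (hc : |(c : ℝ)| ≤ 1) (y Z X : ℕ) (hy : 1 ≤ y) :
    ∑ m ∈ Ioc 0 X, FF c y Z m ^ 2 ≤
      X / √(y : ℝ) * (((1 - g 2)⁻¹ * Ac) ^ 2 * Ac) + 8 * C * Z * Real.log Z := by
  have hC0 := hC.1
  set S := Ioc y Z with hS
  have hSm : ∀ n ∈ S, 1 ≤ n ∧ n ≤ Z := by
    intro n hn
    rw [hS, Finset.mem_Ioc] at hn
    omega
  have hexp : ∑ m ∈ Ioc 0 X, FF c y Z m ^ 2 = ∑ n1 ∈ S, ∑ n2 ∈ S,
      ((c : ℝ) ^ vt n1 * (c : ℝ) ^ vt n2 / ((n1 : ℝ) * n2)) *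
        ∑ m ∈ Ioc 0 X, ((jacobiSym (m : ℤ) (od n1) : ℤ) : ℝ) *
          ((jacobiSym (m : ℤ) (od n2) : ℤ) : ℝ) := by
    have e1 : ∀ m : ℕ, FF c y Z m ^ 2 = ∑ n1 ∈ S, ∑ n2 ∈ S,
        ((c : ℝ) ^ vt n1 * (c : ℝ) ^ vt n2 / ((n1 : ℝ) * n2)) *
        (((jacobiSym (m : ℤ) (od n1) : ℤ) : ℝ) * ((jacobiSym (m : ℤ) (od n2) : ℤ) : ℝ)) := by
      intro m
      rw [pow_two]
      unfold FF
      rw [Finset.sum_mul_sum]
      apply Finset.sum_congr rfl
      intro n1 _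
      apply Finset.sum_congr rfl
      intro n2 _
      ring
    simp only [e1]
    rw [Finset.sum_comm]
    apply Finset.sum_congr rfl
    intro n1 _
    rw [Finset.sum_comm]
    apply Finset.sum_congr rfl
    intro n2 _
    rw [Finset.mul_sum]
  rw [hexp]
  have hterm : ∀ n1 ∈ S, ∀ n2 ∈ S,
      ((c : ℝ) ^ vt n1 * (c : ℝ) ^ vt n2 / ((n1 : ℝ) * n2)) *
        ∑ m ∈ Ioc 0 X, ((jacobiSym (m : ℤ) (od n1) : ℤ) : ℝ) *
          ((jacobiSym (m : ℤ) (od n2) : ℤ) : ℝ) ≤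
      X / √(y : ℝ) * (if IsSquare (od n1 * od n2) then g n1 * g n2 else 0) +
        2 * C * Real.log Z * (1 / √(n1 : ℝ) * (1 / √(n2 : ℝ))) := by
    intro n1 hn1 n2 hn2
    have k1 := (hSm n1 hn1).1
    have k2 := (hSm n2 hn2).1
    have r1 : (1 : ℝ) ≤ n1 := by exact_mod_cast k1
    have r2 : (1 : ℝ) ≤ n2 := by exact_mod_cast k2
    have z1 : (n1 : ℝ) ≤ Z := by exact_mod_cast (hSm n1 hn1).2
    have z2 : (n2 : ℝ) ≤ Z := by exact_mod_cast (hSm n2 hn2).2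
    have hpos : 0 < (n1 : ℝ) * n2 := by positivity
    have hps := pair_sum hC k1 k2 X
    have hcoef : |(c : ℝ) ^ vt n1 * (c : ℝ) ^ vt n2 / ((n1 : ℝ) * n2)| ≤ 1 / ((n1 : ℝ) * n2) := by
      rw [abs_div, abs_mul, abs_pow, abs_pow, abs_of_pos hpos]
      apply div_le_div_of_nonneg_right _ hpos.le
      have a1 : |(c : ℝ)| ^ vt n1 ≤ 1 := pow_le_one₀ (abs_nonneg _) hc
      have a2 : |(c : ℝ)| ^ vt n2 ≤ 1 := pow_le_one₀ (abs_nonneg _) hc
      have a3 : 0 ≤ |(c : ℝ)| ^ vt n2 := by positivity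
      nlinarith
    have h1 := le_abs_self (((c : ℝ) ^ vt n1 * (c : ℝ) ^ vt n2 / ((n1 : ℝ) * n2)) *
        ∑ m ∈ Ioc 0 X, ((jacobiSym (m : ℤ) (od n1) : ℤ) : ℝ) *
          ((jacobiSym (m : ℤ) (od n2) : ℤ) : ℝ))
    rw [abs_mul] at h1
    have h2 := mul_le_mul hcoef hps (abs_nonneg _) (by positivity)
    refine (h1.trans h2).trans ?_
    rw [mul_add]
    apply add_le_add
    · by_cases h : IsSquare (od n1 * od n2)
      · rw [if_pos h, if_pos h]
        -- 1/(n1 n2) ≤ y^(-1/2) g n1 g n2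
        have hgy : ∀ n ∈ S, 1 / (n : ℝ) ≤ (y : ℝ) ^ (-(1 / 4) : ℝ) * g n := by
          intro n hn
          have q0 : (0 : ℝ) < n := by
            have := (hSm n hn).1
            exact_mod_cast (by omega : 0 < n)
          have q1 : (y : ℝ) ≤ n := by
            rw [hS, Finset.mem_Ioc] at hn
            exact_mod_cast hn.1.le
          have q2 : (0 : ℝ) < y := by exact_mod_cast (by omega : 0 < y)
          have e : 1 / (n : ℝ) = (n : ℝ) ^ (-(1 / 4) : ℝ) * g n := by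
            unfold g
            rw [← Real.rpow_add q0]
            norm_num
            rw [Real.rpow_neg_one]
          rw [e]
          apply mul_le_mul_of_nonneg_right _ (g_nonneg n)
          exact Real.rpow_le_rpow_of_nonpos q2 q1 (by norm_num)
        have q2 : (0 : ℝ) < y := by exact_mod_cast (by omega : 0 < y)
        have e2 : (y : ℝ) ^ (-(1 / 4) : ℝ) * (y : ℝ) ^ (-(1 / 4) : ℝ) = 1 / √(y : ℝ) := by
          rw [← Real.rpow_add q2, Real.sqrt_eq_rpow, one_div ((y : ℝ) ^ (1 / 2 : ℝ)),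
            ← Real.rpow_neg q2.le]
          norm_num
        have h3 : 1 / ((n1 : ℝ) * n2) ≤ 1 / √(y : ℝ) * (g n1 * g n2) := by
          have := mul_le_mul (hgy n1 hn1) (hgy n2 hn2) (by positivity)
            (mul_nonneg (Real.rpow_nonneg q2.le _) (g_nonneg n1))
          calc 1 / ((n1 : ℝ) * n2) = 1 / (n1 : ℝ) * (1 / (n2 : ℝ)) := by
                rw [one_div_mul_one_div]
            _ ≤ _ := this
            _ = ((y : ℝ) ^ (-(1 / 4) : ℝ) * (y : ℝ) ^ (-(1 / 4) : ℝ)) * (g n1 * g n2) := by ring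
            _ = _ := by rw [e2]
        calc 1 / ((n1 : ℝ) * n2) * X ≤ 1 / √(y : ℝ) * (g n1 * g n2) * X :=
              mul_le_mul_of_nonneg_right h3 (by positivity)
          _ = X / √(y : ℝ) * (g n1 * g n2) := by ring
      · rw [if_neg h, if_neg h]
        simp
    · have hl : Real.log ((n1 : ℝ) * n2) ≤ 2 * Real.log Z := by
        have : (n1 : ℝ) * n2 ≤ (Z : ℝ) ^ 2 := by nlinarith
        calc Real.log ((n1 : ℝ) * n2) ≤ Real.log ((Z : ℝ) ^ 2) := Real.log_le_log hpos this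
          _ = 2 * Real.log Z := by rw [Real.log_pow]; norm_num
      have hs : √((n1 : ℝ) * n2) = √(n1 : ℝ) * √(n2 : ℝ) := Real.sqrt_mul (by positivity) _
      have p1 : 0 < √(n1 : ℝ) := Real.sqrt_pos.2 (by linarith)
      have p2 : 0 < √(n2 : ℝ) := Real.sqrt_pos.2 (by linarith)
      have s1 : √(n1 : ℝ) * √(n1 : ℝ) = n1 := Real.mul_self_sqrt (by linarith)
      have s2 : √(n2 : ℝ) * √(n2 : ℝ) = n2 := Real.mul_self_sqrt (by linarith)
      have e3 : 1 / ((n1 : ℝ) * n2) * (C * √((n1 : ℝ) * n2) * Real.log ((n1 : ℝ) * n2)) =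
          C * Real.log ((n1 : ℝ) * n2) * (1 / √(n1 : ℝ) * (1 / √(n2 : ℝ))) := by
        have key : ∀ (a b L N : ℝ), 0 < a → 0 < b → N = (a * b) * (a * b) →
            1 / N * (C * (a * b) * L) = C * L * (1 / a * (1 / b)) := by
          intro a b L N ha hb hN
          rw [hN]
          field_simp
        rw [hs]
        exact key _ _ _ _ p1 p2 (by linear_combination (-(n2 : ℝ)) * s1 - √(n1 : ℝ) * √(n1 : ℝ) * s2)
      rw [e3]
      have : C * Real.log ((n1 : ℝ) * n2) ≤ 2 * C * Real.log Z := by nlinarith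
      exact mul_le_mul_of_nonneg_right this (by positivity)
  refine (Finset.sum_le_sum fun n1 hn1 => Finset.sum_le_sum fun n2 hn2 => hterm n1 hn1 n2 hn2).trans ?_
  simp only [Finset.sum_add_distrib]
  apply add_le_add
  · have := pairs Z S hSm
    calc ∑ n1 ∈ S, ∑ n2 ∈ S, X / √(y : ℝ) *
          (if IsSquare (od n1 * od n2) then g n1 * g n2 else 0)
        = X / √(y : ℝ) * ∑ n1 ∈ S, ∑ n2 ∈ S,
          (if IsSquare (od n1 * od n2) then g n1 * g n2 else 0) := by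
          rw [Finset.mul_sum]
          apply Finset.sum_congr rfl
          intro n1 _
          rw [Finset.mul_sum]
      _ ≤ _ := mul_le_mul_of_nonneg_left this (by positivity)
  · have hs1 : ∑ n ∈ S, 1 / √(n : ℝ) ≤ 2 * √(Z : ℝ) := by
      refine le_trans ?_ (sqrt_sum Z)
      apply Finset.sum_le_sum_of_subset_of_nonneg
      · intro n hn
        rw [Finset.mem_Ioc]
        have := hSm n hn
        omega
      · intro n _ _
        positivity
    have hs0 : 0 ≤ ∑ n ∈ S, 1 / √(n : ℝ) := Finset.sum_nonneg fun n _ => by positivity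
    have hlZ : 0 ≤ Real.log (Z : ℝ) := Real.log_natCast_nonneg Z
    have hz : √(Z : ℝ) * √(Z : ℝ) = Z := Real.mul_self_sqrt (by positivity)
    calc ∑ n1 ∈ S, ∑ n2 ∈ S, 2 * C * Real.log Z * (1 / √(n1 : ℝ) * (1 / √(n2 : ℝ)))
        = 2 * C * Real.log Z * ((∑ n ∈ S, 1 / √(n : ℝ)) * ∑ n ∈ S, 1 / √(n : ℝ)) := by
          rw [Finset.sum_mul_sum, Finset.mul_sum]
          apply Finset.sum_congr rfl
          intro n1 _
          rw [Finset.mul_sum]
      _ ≤ 2 * C * Real.log Z * ((2 * √(Z : ℝ)) * (2 * √(Z : ℝ))) := by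
          apply mul_le_mul_of_nonneg_left _ (by positivity)
          exact mul_le_mul hs1 hs1 hs0 (by positivity)
      _ = 8 * C * Z * Real.log Z := by
          linear_combination (8 * C * Real.log Z) * hz

end Pool.Agent.U689.CN
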