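import Pool.Agent.U689.CN.L2

/-!
# Few large values of `L(1, χ_D)`
-/

set_option autoImplicit false

namespace Pool.Agent.U689.CN

open Finset Filter Pool.Agent.H38R2.CG Pool.Agent.H38R2.CG.LM2h
open scoped Classical

theorem chi2_cases (D : ℤ) : chi2 D = 1 ∨ chi2 D = -1 ∨ chi2 D = 0 := by
  unfold chi2
  split_ifs <;> simp

theorem chi2_abs (D : ℤ) : |((chi2 D : ℤ) : ℝ)| ≤ 1 := by
  rcases chi2_cases D with h | h | h <;> rw [h] <;> norm_num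

theorem chi_abs (D : ℤ) (n : ℕ) : |((chi D n : ℤ) : ℝ)| ≤ 1 := by
  unfold chi
  push_cast
  rw [abs_mul, abs_pow]
  have h1 : |((chi2 D : ℤ) : ℝ)| ^ padicValNat 2 n ≤ 1 := pow_le_one₀ (abs_nonneg _) (chi2_abs D)
  have h2 := abs_jac D (n / 2 ^ padicValNat 2 n)
  have h3 : 0 ≤ |((chi2 D : ℤ) : ℝ)| ^ padicValNat 2 n := by positivity
  have h4 := abs_nonneg ((jacobiSym D (n / 2 ^ padicValNat 2 n) : ℤ) : ℝ)
  nlinarith

theorem sum_split (D y Z : ℕ) (hyZ : y ≤ Z) :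
    ∑ n ∈ Finset.Icc 1 Z, (chi D n : ℝ) / n =
      ∑ n ∈ Finset.Icc 1 y, (chi D n : ℝ) / n + FF (chi2 D) y Z D := by
  have e : Finset.Icc 1 Z = Finset.Icc 1 y ∪ Ioc y Z := by
    ext x
    simp only [Finset.mem_Icc, Finset.mem_union, Finset.mem_Ioc]
    omega
  rw [e, Finset.sum_union]
  · congr 1
    unfold FF
    apply Finset.sum_congr rfl
    intro n _
    unfold chi vt od
    push_cast
    rfl
  · rw [Finset.disjoint_left]
    intro x hx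
    simp only [Finset.mem_Icc, Finset.mem_Ioc] at *
    omega

theorem head_le (D : ℤ) {y : ℕ} (hy : 1 ≤ y) :
    ∑ n ∈ Finset.Icc 1 y, (chi D n : ℝ) / n ≤ 1 + Real.log y := by
  have h1 : ∑ n ∈ Finset.Icc 1 y, (chi D n : ℝ) / n ≤ ∑ n ∈ Finset.Icc 1 y, ((n : ℝ))⁻¹ := by
    apply Finset.sum_le_sum
    intro n _
    rw [div_eq_mul_inv]
    have h2 := chi_abs D n
    have h3 : ((chi D n : ℤ) : ℝ) ≤ 1 := (le_abs_self _).trans h2
    have h4 : 0 ≤ ((n : ℝ))⁻¹ := by positivity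
    nlinarith
  refine h1.trans ?_
  have h5 := harmonic_le_one_add_log y
  rw [harmonic_eq_sum_Icc] at h5
  push_cast at h5
  exact h5

/-- few large values -/
theorem few_large : ∃ B C1 : ℝ, 0 < B ∧ 0 < C1 ∧ ∀ X y : ℕ, 2 ≤ X → 1 ≤ y →
    (y : ℝ) ≤ (X : ℝ) ^ (3 / 5 : ℝ) →
    ((((Finset.Icc 2 X).filter (fun D => IsFund D ∧ Real.log y + B < Lone D)).card : ℕ) : ℝ) ≤
      C1 * (X / √(y : ℝ) + (X : ℝ) ^ (4 / 5 : ℝ)) := by
  obtain ⟨C0, hC0, hN⟩ := n3a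
  obtain ⟨C, hC⟩ := exPVC
  have hCp := hC.1
  set K : ℝ := ((1 - g 2)⁻¹ * Ac) ^ 2 * Ac with hK
  have hK0 : 0 ≤ K := mul_nonneg (sq_nonneg _) Ac_nonneg
  refine ⟨2 + 10 * C0, 3 * (K + 96 * C) + 1, by positivity, by positivity, ?_⟩
  intro X y hX hy hyX
  have hXr : (2 : ℝ) ≤ X := by exact_mod_cast hX
  have hX1 : (1 : ℝ) ≤ X := by linarith
  have hX0 : (0 : ℝ) < X := by linarith
  set Z : ℕ := ⌈(X : ℝ) ^ (3 / 5 : ℝ)⌉₊ with hZ
  have hP1 : 1 ≤ (X : ℝ) ^ (3 / 5 : ℝ) := Real.one_le_rpow hX1 (by norm_num)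
  have hZ1 : (X : ℝ) ^ (3 / 5 : ℝ) ≤ Z := Nat.le_ceil _
  have hZ2 : (Z : ℝ) ≤ 2 * (X : ℝ) ^ (3 / 5 : ℝ) := by
    have := (Nat.ceil_lt_add_one (by positivity : 0 ≤ (X : ℝ) ^ (3 / 5 : ℝ))).le
    rw [← hZ] at this
    linarith
  have hZp : (1 : ℝ) ≤ Z := hP1.trans hZ1
  have hZn : 1 ≤ Z := by exact_mod_cast hZp
  have hyZ : y ≤ Z := by
    have : (y : ℝ) ≤ Z := hyX.trans hZ1
    exact_mod_cast this
  -- each large value gives a large short sum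
  have hbig : ∀ D ∈ (Finset.Icc 2 X).filter
      (fun D => IsFund D ∧ Real.log y + (2 + 10 * C0) < Lone D),
      1 ≤ FF (chi2 D) y Z D ^ 2 := by
    intro D hD
    rw [Finset.mem_filter, Finset.mem_Icc] at hD
    obtain ⟨⟨hD2, hDX⟩, hfund, hlarge⟩ := hD
    have h1 := hN D hfund Z hZn
    rw [sum_split D y Z hyZ] at h1
    have h2 := head_le (D : ℤ) hy
    have hDr : (1 : ℝ) ≤ D := by exact_mod_cast (by omega : 1 ≤ D)
    have hDXr : (D : ℝ) ≤ X := by exact_mod_cast hDX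
    have herr : C0 * √(D : ℝ) * Real.log D / Z ≤ 10 * C0 := by
      have e1 : Real.log D ≤ Real.log X := Real.log_le_log (by linarith) hDXr
      have e2 : √(D : ℝ) ≤ √(X : ℝ) := Real.sqrt_le_sqrt hDXr
      have e3 : Real.log X ≤ (X : ℝ) ^ (1 / 10 : ℝ) / (1 / 10) :=
        Real.log_le_rpow_div hX0.le (by norm_num)
      have e4 : 0 ≤ Real.log (D : ℝ) := Real.log_nonneg hDr
      have e5 : √(X : ℝ) * (X : ℝ) ^ (1 / 10 : ℝ) = (X : ℝ) ^ (3 / 5 : ℝ) := by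
        rw [Real.sqrt_eq_rpow, ← Real.rpow_add hX0]
        norm_num
      rw [div_le_iff₀ (by linarith)]
      calc C0 * √(D : ℝ) * Real.log D ≤ C0 * √(X : ℝ) * ((X : ℝ) ^ (1 / 10 : ℝ) / (1 / 10)) := by
            apply mul_le_mul (mul_le_mul_of_nonneg_left e2 hC0.le) (e1.trans e3) e4 (by positivity)
        _ = 10 * C0 * (√(X : ℝ) * (X : ℝ) ^ (1 / 10 : ℝ)) := by ring
        _ = 10 * C0 * (X : ℝ) ^ (3 / 5 : ℝ) := by rw [e5]
        _ ≤ 10 * C0 * Z := mul_le_mul_of_nonneg_left hZ1 (by positivity)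
    have h3 := (abs_le.1 (h1.trans herr)).2
    have h4 : 1 < FF (chi2 D) y Z D := by linarith
    nlinarith
  set T := (Finset.Icc 2 X).filter
      (fun D => IsFund D ∧ Real.log y + (2 + 10 * C0) < Lone D) with hT
  have hcard : ((T.card : ℕ) : ℝ) ≤ ∑ D ∈ T, FF (chi2 D) y Z D ^ 2 := by
    calc ((T.card : ℕ) : ℝ) = ∑ _D ∈ T, (1 : ℝ) := by simp
      _ ≤ _ := Finset.sum_le_sum hbig
  have hsum : ∑ D ∈ T, FF (chi2 D) y Z D ^ 2 ≤
      ∑ m ∈ Ioc 0 X, FF 1 y Z m ^ 2 + ∑ m ∈ Ioc 0 X, FF (-1) y Z m ^ 2 +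
        ∑ m ∈ Ioc 0 X, FF 0 y Z m ^ 2 := by
    rw [← Finset.sum_add_distrib, ← Finset.sum_add_distrib]
    calc ∑ D ∈ T, FF (chi2 D) y Z D ^ 2
        ≤ ∑ D ∈ T, (FF 1 y Z D ^ 2 + FF (-1) y Z D ^ 2 + FF 0 y Z D ^ 2) := by
          apply Finset.sum_le_sum
          intro D _
          have q1 := sq_nonneg (FF 1 y Z D)
          have q2 := sq_nonneg (FF (-1) y Z D)
          have q3 := sq_nonneg (FF 0 y Z D)
          rcases chi2_cases (D : ℤ) with h | h | h <;> rw [h] <;> linarith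
      _ ≤ _ := by
          apply Finset.sum_le_sum_of_subset_of_nonneg
          · intro D hD
            rw [hT, Finset.mem_filter, Finset.mem_Icc] at hD
            rw [Finset.mem_Ioc]
            omega
          · intro D _ _
            positivity
  have s1 := second hC (c := 1) (by norm_num) y Z X hy
  have s2 := second hC (c := -1) (by norm_num) y Z X hy
  have s3 := second hC (c := 0) (by norm_num) y Z X hy
  rw [← hK] at s1 s2 s3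
  have hZl : (Z : ℝ) * Real.log Z ≤ 12 * (X : ℝ) ^ (4 / 5 : ℝ) := by
    have e1 : Real.log Z ≤ (Z : ℝ) ^ (1 / 3 : ℝ) / (1 / 3) :=
      Real.log_le_rpow_div (by linarith) (by norm_num)
    have e2 : (Z : ℝ) * (Z : ℝ) ^ (1 / 3 : ℝ) = (Z : ℝ) ^ (4 / 3 : ℝ) := by
      nth_rewrite 1 [← Real.rpow_one (Z : ℝ)]
      rw [← Real.rpow_add (by linarith)]
      norm_num
    have e3 : (Z : ℝ) ^ (4 / 3 : ℝ) ≤ (2 * (X : ℝ) ^ (3 / 5 : ℝ)) ^ (4 / 3 : ℝ) :=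
      Real.rpow_le_rpow (by linarith) hZ2 (by norm_num)
    have e4 : (2 * (X : ℝ) ^ (3 / 5 : ℝ)) ^ (4 / 3 : ℝ) =
        (2 : ℝ) ^ (4 / 3 : ℝ) * (X : ℝ) ^ (4 / 5 : ℝ) := by
      rw [Real.mul_rpow (by norm_num) (by positivity), ← Real.rpow_mul hX0.le]
      norm_num
    have e5 : (2 : ℝ) ^ (4 / 3 : ℝ) ≤ 4 := by
      calc (2 : ℝ) ^ (4 / 3 : ℝ) ≤ (2 : ℝ) ^ (2 : ℝ) :=
            Real.rpow_le_rpow_of_exponent_le (by norm_num) (by norm_num)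
        _ = 4 := by norm_num
    have e6 : 0 ≤ (X : ℝ) ^ (4 / 5 : ℝ) := by positivity
    calc (Z : ℝ) * Real.log Z ≤ (Z : ℝ) * ((Z : ℝ) ^ (1 / 3 : ℝ) / (1 / 3)) :=
          mul_le_mul_of_nonneg_left e1 (by linarith)
      _ = 3 * ((Z : ℝ) * (Z : ℝ) ^ (1 / 3 : ℝ)) := by ring
      _ = 3 * (Z : ℝ) ^ (4 / 3 : ℝ) := by rw [e2]
      _ ≤ 3 * ((2 : ℝ) ^ (4 / 3 : ℝ) * (X : ℝ) ^ (4 / 5 : ℝ)) := by
          rw [← e4]; linarith
      _ ≤ 3 * (4 * (X : ℝ) ^ (4 / 5 : ℝ)) := by nlinarith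
      _ = _ := by ring
  have h9 : 8 * C * Z * Real.log Z ≤ 96 * C * (X : ℝ) ^ (4 / 5 : ℝ) := by nlinarith
  have hq : 0 ≤ (X : ℝ) / √(y : ℝ) := by positivity
  have hq2 : 0 ≤ (X : ℝ) ^ (4 / 5 : ℝ) := by positivity
  have hfin : ((T.card : ℕ) : ℝ) ≤ 3 * (X / √(y : ℝ) * K + 96 * C * (X : ℝ) ^ (4 / 5 : ℝ)) := by
    linarith
  refine hfin.trans ?_
  nlinarith [mul_nonneg hK0 hq2, mul_nonneg hCp.le hq]

end Pool.Agent.U689.CN
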