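import Pool.Agent.U689.CN.L3
import Pool.Agent.U689.CN.B
import Pool.Agent.Q276.PL.All

/-!
# Bounds for the class number of one field
-/

set_option autoImplicit false

namespace Pool.Agent.U689.CN

open Finset Filter NumberField Pool.Agent.H38R2.CG Pool.Agent.Q276.PL
open scoped Classical

theorem isFund_dsc {d : ℕ} (h1 : 1 < d) (hs : Squarefree d) : IsFund (dsc d) := by
  have h4 : d % 4 ≠ 0 := by
    intro h0
    have h2 : 2 * 2 ∣ d := ⟨d / 4, by omega⟩
    have := hs 2 h2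
    rw [Nat.isUnit_iff] at this
    omega
  unfold dsc
  split_ifs with h
  · exact ⟨h1, Or.inl ⟨h, hs⟩⟩
  · exact ⟨by omega, Or.inr ⟨d, rfl, by omega, hs⟩⟩

theorem dsc_le (d : ℕ) : dsc d ≤ 4 * d := by
  unfold dsc
  split_ifs <;> omega

theorem le_dsc (d : ℕ) : d ≤ dsc d := by
  unfold dsc
  split_ifs <;> omega

theorem dsc_inj {d e : ℕ} (hd : Squarefree d) (he : Squarefree e) (h : dsc d = dsc e) : d = e := by
  have key : ∀ {x : ℕ}, Squarefree x → x % 4 ≠ 0 := by
    intro x hx h0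
    have h2 : 2 * 2 ∣ x := ⟨x / 4, by omega⟩
    have := hx 2 h2
    rw [Nat.isUnit_iff] at this
    omega
  have k1 := key hd
  have k2 := key he
  unfold dsc at h
  split_ifs at h <;> omega

section one

variable {K : Type} [Field K] [NumberField K] {d : ℕ}

theorem discr_eq (h1 : 1 < d) (hs : Squarefree d) (h2 : Module.finrank ℚ K = 2)
    (hx : ∃ x : K, x ^ 2 = (d : K)) : discr K = ((dsc d : ℕ) : ℤ) := by
  rw [T_N0d K d h1 hs h2 hx]
  unfold dsc
  split_ifs <;> push_cast <;> rfl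

theorem formula (h1 : 1 < d) (hs : Squarefree d) (h2 : Module.finrank ℚ K = 2)
    (hx : ∃ x : K, x ^ 2 = (d : K)) :
    2 * Units.regulator K * (classNumber K : ℝ) = √(dsc d : ℝ) * Lone (dsc d) :=
  cnf (isFund_dsc h1 hs) h2 (discr_eq h1 hs h2 hx)

/-- a lower bound for the regulator gives an upper bound for the class number -/
theorem class_le (h1 : 1 < d) (hs : Squarefree d) (h2 : Module.finrank ℚ K = 2)
    (hx : ∃ x : K, x ^ 2 = (d : K)) {R L : ℝ} (hR : 0 < R) (hRK : R ≤ Units.regulator K)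
    (hL : Lone (dsc d) ≤ L) : (classNumber K : ℝ) ≤ √(d : ℝ) * L / R := by
  have hf := formula h1 hs h2 hx
  have hc : (1 : ℝ) ≤ (classNumber K : ℝ) := by
    have : 0 < classNumber K := Fintype.card_pos
    exact_mod_cast this
  have hs0 : √(dsc d : ℝ) ≤ 2 * √(d : ℝ) := by
    have e : (2 : ℝ) * √(d : ℝ) = √(4 * (d : ℝ)) := by
      rw [Real.sqrt_mul (by norm_num)]
      congr 1
      rw [show (4 : ℝ) = 2 ^ 2 by norm_num, Real.sqrt_sq (by norm_num)]
    rw [e]
    apply Real.sqrt_le_sqrt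
    exact_mod_cast dsc_le d
  have hl0 : 0 ≤ Lone (dsc d) := by
    by_contra h
    push Not at h
    have h3 : 0 < √(dsc d : ℝ) := by
      apply Real.sqrt_pos.2
      have := le_dsc d
      exact_mod_cast (by omega : 0 < dsc d)
    have h4 : √(dsc d : ℝ) * Lone (dsc d) < 0 := mul_neg_of_pos_of_neg h3 h
    have h5 : 0 < 2 * Units.regulator K * (classNumber K : ℝ) := by
      have := Units.regulator_pos K
      positivity
    linarith
  rw [le_div_iff₀ hR]
  have h6 : 2 * R * (classNumber K : ℝ) ≤ 2 * √(d : ℝ) * L := by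
    calc 2 * R * (classNumber K : ℝ) ≤ 2 * Units.regulator K * (classNumber K : ℝ) := by
          apply mul_le_mul_of_nonneg_right _ (by linarith)
          linarith
      _ = √(dsc d : ℝ) * Lone (dsc d) := hf
      _ ≤ 2 * √(d : ℝ) * L := mul_le_mul hs0 hL hl0 (by positivity)
  nlinarith

theorem dsc_ge (h1 : 1 < d) (hs : Squarefree d) : 5 ≤ dsc d := by
  unfold dsc
  split_ifs with h <;> omega

/-- trivial lower bound for the regulator -/
theorem reg_triv (h1 : 1 < d) (hs : Squarefree d) (h2 : Module.finrank ℚ K = 2)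
    (hx : ∃ x : K, x ^ 2 = (d : K)) : Real.log (dsc d) / 4 ≤ Units.regulator K := by
  obtain ⟨t, u, ht, hu, -, he⟩ := reg (isFund_dsc h1 hs) h2 (discr_eq h1 hs h2 hx)
  rw [he]
  have h5 : (5 : ℝ) ≤ dsc d := by exact_mod_cast dsc_ge h1 hs
  have h0 : (0 : ℝ) < dsc d := by linarith
  have ht' : (1 : ℝ) ≤ t := by exact_mod_cast ht
  have hu' : (1 : ℝ) ≤ u := by exact_mod_cast hu
  have hs0 := Real.sqrt_nonneg (dsc d : ℝ)
  set w : ℝ := (dsc d : ℝ) ^ (1 / 4 : ℝ) with hw
  have hw2 : w ^ 2 = √(dsc d : ℝ) := by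
    rw [hw, ← Real.rpow_natCast, ← Real.rpow_mul h0.le, Real.sqrt_eq_rpow]
    norm_num
  have hw0 : 0 < w := Real.rpow_pos_of_pos h0 _
  have h3 : w ≤ ((t : ℝ) + (u : ℝ) * √(dsc d : ℝ)) / 2 := by
    have : (1 : ℝ) + √(dsc d : ℝ) ≤ (t : ℝ) + (u : ℝ) * √(dsc d : ℝ) := by nlinarith
    nlinarith [sq_nonneg (w - 1)]
  calc Real.log (dsc d) / 4 = Real.log w := by
        rw [hw, Real.log_rpow h0]; ring
    _ ≤ _ := Real.log_le_log hw0 h3

end one

/-- bound for `L(1, χ)` -/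
theorem lone_le : ∃ C : ℝ, 0 < C ∧ ∀ D : ℕ, IsFund D → 5 ≤ D → Lone D ≤ C * Real.log D := by
  obtain ⟨C0, hC0, hN⟩ := n3a
  refine ⟨2 + C0, by positivity, ?_⟩
  intro D hD h5
  have h5r : (5 : ℝ) ≤ D := by exact_mod_cast h5
  have h0 : (0 : ℝ) < D := by linarith
  have h1 := hN D hD D (by omega)
  have h2 := head_le (D : ℤ) (y := D) (by omega)
  have hl : 1 ≤ Real.log D := by
    have e1 : Real.exp 1 < 2.7182818286 := Real.exp_one_lt_d9
    rw [Real.le_log_iff_exp_le h0]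
    linarith
  have h3 : C0 * √(D : ℝ) * Real.log D / D ≤ C0 * Real.log D := by
    rw [div_le_iff₀ h0]
    have h4 : √(D : ℝ) ≤ D := by
      rw [Real.sqrt_le_left h0.le]
      nlinarith
    have h6 : 0 ≤ C0 * Real.log D := by positivity
    nlinarith
  have h7 := (abs_le.1 h1).2
  nlinarith

/-- trivial bound for the class number -/
theorem class_triv : ∃ C : ℝ, 1 ≤ C ∧ ∀ (K : Type) [Field K] [NumberField K] (d : ℕ), 1 < d →
    Squarefree d → Module.finrank ℚ K = 2 → (∃ x : K, x ^ 2 = (d : K)) →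
    (classNumber K : ℝ) ≤ C * √(d : ℝ) := by
  obtain ⟨C, hC, h⟩ := lone_le
  refine ⟨4 * C + 1, by linarith, ?_⟩
  intro K _ _ d h1 hs h2 hx
  have h5 := dsc_ge h1 hs
  have h5r : (5 : ℝ) ≤ dsc d := by exact_mod_cast h5
  have hl : 0 < Real.log (dsc d : ℝ) := Real.log_pos (by linarith)
  have h3 := class_le h1 hs h2 hx (R := Real.log (dsc d) / 4) (by positivity)
    (reg_triv h1 hs h2 hx) (h (dsc d) (isFund_dsc h1 hs) h5)
  have e : √(d : ℝ) * (C * Real.log (dsc d)) / (Real.log (dsc d) / 4) = 4 * C * √(d : ℝ) := by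
    field_simp
  rw [e] at h3
  have := Real.sqrt_nonneg (d : ℝ)
  linarith

end Pool.Agent.U689.CN
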