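import Pool.Agent.U689.CN.L4

/-!
# The exceptional set
-/

set_option autoImplicit false

namespace Pool.Agent.U689.CN

open Finset Filter NumberField Pool.Agent.H38R2.CG Pool.Agent.Q276.PL
open scoped Classical

theorem ev_pow {a b : ℝ} (hab : a < b) (K : ℝ) :
    ∀ᶠ L : ℝ in atTop, K * L ^ a ≤ L ^ b := by
  have h1 := (tendsto_rpow_atTop (y := b - a) (by linarith)).eventually (eventually_ge_atTop K)
  filter_upwards [h1, eventually_gt_atTop 0] with L h2 h3
  have e : L ^ b = L ^ (b - a) * L ^ a := by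
    rw [← Real.rpow_add h3]; congr 1; ring
  rw [e]
  exact mul_le_mul_of_nonneg_right h2 (Real.rpow_nonneg h3.le _)

theorem log_tend : Tendsto (fun N : ℕ => Real.log N) atTop atTop :=
  Real.tendsto_log_atTop.comp tendsto_natCast_atTop_atTop

/-- a good `d` -/
theorem good_of {δ : ℝ} (hδ : 0 < δ) (hδ2 : δ < 1 / 2) {N d : ℕ} (h1 : 1 < d) (hdN : d ≤ N)
    (hs : Squarefree d)
    (hU : ¬ SmallUnit (dsc d) (Real.exp (Real.log N ^ (3 / 2 - δ / 2))))
    (hL : Lone (dsc d) ≤ Real.log N ^ (δ / 2)) : GoodC δ d := by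
  intro K _ _ h2 hx
  have hd1 : (1 : ℝ) < d := by exact_mod_cast h1
  have hdN' : (d : ℝ) ≤ N := by exact_mod_cast hdN
  have hld : 0 < Real.log d := Real.log_pos hd1
  have hlN : Real.log d ≤ Real.log N := Real.log_le_log (by linarith) hdN'
  have hN0 : 0 < Real.log N := by linarith
  obtain ⟨t, u, ht, hu, hn, he⟩ := reg (isFund_dsc h1 hs) h2 (discr_eq h1 hs h2 hx)
  have hR : Real.log N ^ (3 / 2 - δ / 2) ≤ Units.regulator K := by
    rw [he]
    have h3 : ¬ ((t : ℝ) + (u : ℝ) * √((dsc d : ℕ) : ℝ)) / 2 ≤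
        Real.exp (Real.log N ^ (3 / 2 - δ / 2)) := fun h => hU ⟨t, u, ht, hu, hn, h⟩
    push Not at h3
    have h4 := Real.log_le_log (Real.exp_pos _) h3.le
    rwa [Real.log_exp] at h4
  have h5 := class_le h1 hs h2 hx (Real.rpow_pos_of_pos hN0 _) hR hL
  refine h5.trans ?_
  have e : √(d : ℝ) * Real.log N ^ (δ / 2) / Real.log N ^ (3 / 2 - δ / 2) =
      √(d : ℝ) / Real.log N ^ (3 / 2 - δ) := by
    have e2 : Real.log N ^ (3 / 2 - δ / 2) = Real.log N ^ (3 / 2 - δ) * Real.log N ^ (δ / 2) := by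
      rw [← Real.rpow_add hN0]; congr 1; ring
    rw [e2]
    have q1 : 0 < Real.log N ^ (3 / 2 - δ) := Real.rpow_pos_of_pos hN0 _
    have q2 : 0 < Real.log N ^ (δ / 2) := Real.rpow_pos_of_pos hN0 _
    field_simp
  rw [e]
  apply div_le_div_of_nonneg_left (Real.sqrt_nonneg _) (Real.rpow_pos_of_pos hld _)
  exact Real.rpow_le_rpow hld.le hlN (by linarith)

/-- the size conditions -/
theorem conds {δ : ℝ} (hδ : 0 < δ) (hδ2 : δ < 1 / 2) (B : ℝ) : ∀ᶠ N : ℕ in atTop,
    ∃ y : ℕ, 1 ≤ y ∧ (y : ℝ) ≤ ((4 * N : ℕ) : ℝ) ^ (3 / 5 : ℝ) ∧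
      1 / √(y : ℝ) ≤ Real.exp (-(Real.log N ^ (δ / 16))) ∧
      ((4 * N : ℕ) : ℝ) ^ (4 / 5 : ℝ) ≤ N * Real.exp (-(Real.log N ^ (δ / 16))) ∧
      Real.log y + B ≤ Real.log N ^ (δ / 2) := by
  have a1 := log_tend.eventually (ev_pow (show δ / 4 < 1 by linarith) 5)
  have a2 := log_tend.eventually (ev_pow (show δ / 16 < δ / 4 by linarith) 2)
  have a3 := log_tend.eventually (ev_pow (show δ / 16 < 1 by linarith) 10)
  have a4 := log_tend.eventually (ev_pow (show δ / 4 < δ / 2 by linarith) 2)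
  have a5 := log_tend.eventually (ev_pow (show (0 : ℝ) < δ / 2 by linarith) (2 * (1 + |B|)))
  have a6 := log_tend.eventually (eventually_ge_atTop (100 : ℝ))
  filter_upwards [a1, a2, a3, a4, a5, a6, eventually_ge_atTop 2] with N b1 b2 b3 b4 b5 b6 hN
  set L : ℝ := Real.log N with hL
  rw [Real.rpow_one] at b1 b3
  rw [Real.rpow_zero, mul_one] at b5
  have hNr : (2 : ℝ) ≤ N := by exact_mod_cast hN
  have hN0 : (0 : ℝ) < N := by linarith
  have hL0 : 0 < L := by linarith
  have hexp : Real.exp L = N := Real.exp_log hN0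
  have p4 : 0 ≤ L ^ (δ / 4) := Real.rpow_nonneg hL0.le _
  have p16 : 0 ≤ L ^ (δ / 16) := Real.rpow_nonneg hL0.le _
  have hln2 : Real.log 2 ≤ 1 := by
    have := Real.log_two_lt_d9
    linarith
  set y : ℕ := ⌈Real.exp (L ^ (δ / 4))⌉₊ with hy
  have y1 : Real.exp (L ^ (δ / 4)) ≤ y := Nat.le_ceil _
  have y0 : 1 ≤ Real.exp (L ^ (δ / 4)) := Real.one_le_exp p4
  have y2 : (y : ℝ) ≤ 2 * Real.exp (L ^ (δ / 4)) := by
    have := (Nat.ceil_lt_add_one (Real.exp_pos (L ^ (δ / 4))).le).le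
    rw [← hy] at this
    linarith
  have yp : (1 : ℝ) ≤ y := y0.trans y1
  have y3 : (y : ℝ) ≤ Real.exp (L ^ (δ / 4) + 1) := by
    rw [Real.exp_add]
    have : (2 : ℝ) ≤ Real.exp 1 := by
      have := Real.add_one_le_exp (1 : ℝ)
      linarith
    nlinarith [Real.exp_pos (L ^ (δ / 4))]
  refine ⟨y, by exact_mod_cast yp, ?_, ?_, ?_, ?_⟩
  · have h1 : Real.exp (3 / 5 * L) ≤ ((4 * N : ℕ) : ℝ) ^ (3 / 5 : ℝ) := by
      have : Real.exp (3 / 5 * L) = (N : ℝ) ^ (3 / 5 : ℝ) := by
        rw [← hexp, ← Real.exp_mul]; ring_nf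
      rw [this]
      apply Real.rpow_le_rpow hN0.le _ (by norm_num)
      push_cast
      linarith
    refine (y3.trans ?_).trans h1
    apply Real.exp_le_exp.2
    linarith
  · have hs : Real.exp (L ^ (δ / 4) / 2) ≤ √(y : ℝ) := by
      apply Real.le_sqrt_of_sq_le
      rw [← Real.exp_nat_mul]
      refine le_trans (le_of_eq ?_) y1
      congr 1
      push_cast
      ring
    calc 1 / √(y : ℝ) ≤ 1 / Real.exp (L ^ (δ / 4) / 2) :=
          one_div_le_one_div_of_le (Real.exp_pos _) hs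
      _ = Real.exp (-(L ^ (δ / 4) / 2)) := by rw [Real.exp_neg, one_div]
      _ ≤ _ := Real.exp_le_exp.2 (by linarith)
  · have h4 : Real.log 4 ≤ 2 := by
      have : Real.log 4 = 2 * Real.log 2 := by
        rw [show (4 : ℝ) = 2 ^ 2 by norm_num, Real.log_pow]; norm_num
      linarith
    have h2 : ((4 * N : ℕ) : ℝ) ^ (4 / 5 : ℝ) = Real.exp (4 / 5 * (Real.log 4 + L)) := by
      have h3 : (0 : ℝ) < ((4 * N : ℕ) : ℝ) := by push_cast; positivity
      rw [Real.rpow_def_of_pos h3]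
      congr 1
      push_cast
      rw [Real.log_mul (by norm_num) hN0.ne']
      ring
    rw [h2]
    calc Real.exp (4 / 5 * (Real.log 4 + L)) ≤ Real.exp (L + -(L ^ (δ / 16))) :=
          Real.exp_le_exp.2 (by linarith)
      _ = _ := by rw [Real.exp_add, hexp]
  · have h5 : Real.log y ≤ L ^ (δ / 4) + 1 := by
      have := Real.log_le_log (by linarith) y3
      rwa [Real.log_exp] at this
    have := le_abs_self B
    linarith

/-- few exceptions -/
theorem exc (δ : ℝ) (hδ : 0 < δ) (hδ2 : δ < 1 / 2) : ∃ M : ℝ, 0 ≤ M ∧ ∀ N : ℕ, 2 ≤ N →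
    ((((Finset.Icc 2 N).filter (fun d => Squarefree d ∧ ¬ GoodC δ d)).card : ℕ) : ℝ) ≤
      M * N * Real.exp (-(Real.log N ^ (δ / 16))) := by
  obtain ⟨M1, hM1⟩ := rgb_true (δ / 2) (by linarith) (by linarith)
  obtain ⟨B, C1, -, hC1, hfew⟩ := few_large
  obtain ⟨N0, hN0⟩ := Filter.eventually_atTop.1 (conds hδ hδ2 B)
  set M : ℝ := |M1| + 5 * C1 + Real.exp (Real.log N0 ^ (δ / 16)) with hM
  have hMp : 0 ≤ M := by positivity
  refine ⟨M, hMp, ?_⟩
  intro N hN
  have hNr : (2 : ℝ) ≤ N := by exact_mod_cast hN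
  have hE := Real.exp_pos (-(Real.log N ^ (δ / 16)))
  set E : ℝ := Real.exp (-(Real.log N ^ (δ / 16))) with hEd
  by_cases hNN : N0 ≤ N
  · obtain ⟨y, y1, c1, c2, c3, c4⟩ := hN0 N hNN
    set T1 := (Finset.Icc 2 N).filter (fun d => Squarefree d ∧
      SmallUnit (dsc d) (Real.exp (Real.log N ^ (3 / 2 - δ / 2)))) with hT1
    set T2 := (Finset.Icc 2 N).filter (fun d => Squarefree d ∧ Real.log y + B < Lone (dsc d))
      with hT2
    have hsub : (Finset.Icc 2 N).filter (fun d => Squarefree d ∧ ¬ GoodC δ d) ⊆ T1 ∪ T2 := by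
      intro d hd
      rw [Finset.mem_filter, Finset.mem_Icc] at hd
      obtain ⟨⟨hd2, hdN⟩, hs, hg⟩ := hd
      rw [Finset.mem_union, hT1, hT2, Finset.mem_filter, Finset.mem_filter, Finset.mem_Icc]
      by_contra hcon
      push Not at hcon
      obtain ⟨k1, k2⟩ := hcon
      exact hg (good_of hδ hδ2 (by omega) hdN hs (k1 ⟨hd2, hdN⟩ hs)
        ((k2 ⟨hd2, hdN⟩ hs).trans c4))
    have hc1 : ((T1.card : ℕ) : ℝ) ≤ M1 * N * E := by
      have := hM1 N hN
      have e : δ / 2 / 8 = δ / 16 := by ring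
      rw [e] at this
      exact this
    have hc2 : ((T2.card : ℕ) : ℝ) ≤ 5 * C1 * N * E := by
      have h3 : T2.card ≤ ((Finset.Icc 2 (4 * N)).filter
          (fun D => IsFund D ∧ Real.log y + B < Lone D)).card := by
        apply Finset.card_le_card_of_injOn dsc
        · intro d hd
          rw [hT2, Finset.mem_coe, Finset.mem_filter, Finset.mem_Icc] at hd
          rw [Finset.mem_coe, Finset.mem_filter, Finset.mem_Icc]
          have q1 := le_dsc d
          have q2 := dsc_le d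
          exact ⟨by omega, isFund_dsc (by omega) hd.2.1, hd.2.2⟩
        · intro d hd d' hd' h
          rw [hT2, Finset.mem_coe, Finset.mem_filter] at hd hd'
          exact dsc_inj hd.2.1 hd'.2.1 h
      have h4 := hfew (4 * N) y (by omega) y1 c1
      have h5 : ((T2.card : ℕ) : ℝ) ≤ (((Finset.Icc 2 (4 * N)).filter
          (fun D => IsFund D ∧ Real.log y + B < Lone D)).card : ℝ) := by exact_mod_cast h3
      refine (h5.trans h4).trans ?_
      have h6 : ((4 * N : ℕ) : ℝ) / √(y : ℝ) ≤ 4 * N * E := by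
        rw [div_eq_mul_one_div]
        push_cast
        exact mul_le_mul_of_nonneg_left c2 (by positivity)
      calc C1 * (((4 * N : ℕ) : ℝ) / √(y : ℝ) + ((4 * N : ℕ) : ℝ) ^ (4 / 5 : ℝ)) ≤
            C1 * (4 * N * E + N * E) := mul_le_mul_of_nonneg_left (add_le_add h6 c3) hC1.le
        _ = _ := by ring
    have hcard : (((Finset.Icc 2 N).filter (fun d => Squarefree d ∧ ¬ GoodC δ d)).card : ℝ) ≤
        (T1.card : ℝ) + T2.card := by
      have := (Finset.card_le_card hsub).trans (Finset.card_union_le T1 T2)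
      exact_mod_cast this
    have hab := le_abs_self M1
    have hNE : 0 ≤ (N : ℝ) * E := by positivity
    have hex := Real.exp_pos (Real.log N0 ^ (δ / 16))
    calc (((Finset.Icc 2 N).filter (fun d => Squarefree d ∧ ¬ GoodC δ d)).card : ℝ)
        ≤ M1 * N * E + 5 * C1 * N * E := by linarith
      _ = (M1 + 5 * C1) * (N * E) := by ring
      _ ≤ M * (N * E) := mul_le_mul_of_nonneg_right (by linarith) hNE
      _ = M * N * E := by ring
  · push Not at hNN
    have h7 : (((Finset.Icc 2 N).filter (fun d => Squarefree d ∧ ¬ GoodC δ d)).card : ℝ) ≤ N := by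
      have : ((Finset.Icc 2 N).filter (fun d => Squarefree d ∧ ¬ GoodC δ d)).card ≤ N := by
        refine (Finset.card_filter_le _ _).trans ?_
        rw [Nat.card_Icc]
        omega
      exact_mod_cast this
    refine h7.trans ?_
    have h8 : Real.log N ^ (δ / 16) ≤ Real.log N0 ^ (δ / 16) := by
      apply Real.rpow_le_rpow (Real.log_nonneg (by linarith)) _ (by linarith)
      apply Real.log_le_log (by linarith)
      exact_mod_cast hNN.le
    have h9 : 1 ≤ Real.exp (Real.log N0 ^ (δ / 16)) * E := by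
      rw [hEd, ← Real.exp_add]
      apply Real.one_le_exp
      linarith
    have h10 : Real.exp (Real.log N0 ^ (δ / 16)) ≤ M := by
      have := abs_nonneg M1
      linarith
    have h11 : 1 ≤ M * E := h9.trans (mul_le_mul_of_nonneg_right h10 hE.le)
    nlinarith

end Pool.Agent.U689.CN
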