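import Pool.Agent.U689.CN.L5

/-!
# Moments and primes
-/

set_option autoImplicit false

namespace Pool.Agent.U689.CN

open Finset Filter NumberField Pool.Agent.H38R2.CG Pool.Agent.Q276.PL
open scoped Classical

theorem pow_exp {A c : ℝ} (hA : 0 ≤ A) (hc : 0 < c) : ∃ K : ℝ, 1 ≤ K ∧ ∀ L : ℝ, 0 ≤ L →
    L ^ A ≤ K * Real.exp (L ^ c) := by
  set n : ℕ := ⌈A / c⌉₊ with hn
  refine ⟨1 + n.factorial, by
    have : (0 : ℝ) ≤ n.factorial := by positivity
    linarith, ?_⟩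
  intro L hL
  set x : ℝ := L ^ c with hx
  have hx0 : 0 ≤ x := Real.rpow_nonneg hL _
  have e : L ^ A = x ^ (A / c) := by
    rw [hx, ← Real.rpow_mul hL]
    congr 1
    field_simp
  have hex : 1 ≤ Real.exp x := Real.one_le_exp hx0
  have hfac : (0 : ℝ) ≤ n.factorial := by positivity
  rw [e]
  rcases le_or_gt x 1 with h | h
  · have : x ^ (A / c) ≤ 1 := Real.rpow_le_one hx0 h (by positivity)
    nlinarith
  · have h1 : x ^ (A / c) ≤ x ^ (n : ℝ) :=
      Real.rpow_le_rpow_of_exponent_le h.le (Nat.le_ceil _)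
    rw [Real.rpow_natCast] at h1
    have h2 := Real.pow_div_factorial_le_exp (x := x) hx0 n
    have hf1 : (0 : ℝ) < n.factorial := by exact_mod_cast Nat.factorial_pos n
    rw [div_le_iff₀ hf1] at h2
    nlinarith

/-- moments over a set of squarefree numbers -/
theorem mom (δ : ℝ) (hδ : 0 < δ) (hδ2 : δ < 1 / 2) (k : ℕ) : ∃ C : ℝ, 0 ≤ C ∧ ∀ N : ℕ, 2 ≤ N →
    ∀ T : Finset ℕ, (∀ d ∈ T, 2 ≤ d ∧ d ≤ N ∧ Squarefree d) →
    ∀ (K : ℕ → Type) [∀ d, Field (K d)] [∀ d, NumberField (K d)],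
    (∀ d ∈ T, Module.finrank ℚ (K d) = 2 ∧ ∃ x : K d, x ^ 2 = (d : K d)) →
    ∑ d ∈ T, (classNumber (K d) : ℝ) ^ k ≤ C * √(N : ℝ) ^ k *
      ((T.card : ℝ) / (Real.log N ^ (3 / 2 - δ)) ^ k + √(N : ℝ) +
        N * Real.exp (-(Real.log N ^ (δ / 16)))) := by
  obtain ⟨M, hM, hexc⟩ := exc δ hδ hδ2
  obtain ⟨C, hC1, htriv⟩ := class_triv
  set c2 : ℝ := (2 : ℝ) ^ (3 / 2 - δ) with hc2
  have hc2p : 0 < c2 := Real.rpow_pos_of_pos (by norm_num) _
  refine ⟨C ^ k * (1 + M) + c2 ^ k, by positivity, ?_⟩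
  intro N hN T hT K _ _ hK
  have hNr : (2 : ℝ) ≤ N := by exact_mod_cast hN
  have hN0 : (0 : ℝ) < N := by linarith
  have hL0 : 0 < Real.log N := Real.log_pos (by linarith)
  set L : ℝ := Real.log N with hL
  set E : ℝ := Real.exp (-(L ^ (δ / 16))) with hE
  have hEp : 0 < E := Real.exp_pos _
  set θ : ℝ := 3 / 2 - δ with hθ
  have hLθ : 0 < L ^ θ := Real.rpow_pos_of_pos hL0 _
  have hsN : 0 ≤ √(N : ℝ) := Real.sqrt_nonneg _
  -- pointwise bound
  have hpt : ∀ d ∈ T, (classNumber (K d) : ℝ) ^ k ≤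
      c2 ^ k * (√(N : ℝ) ^ k / (L ^ θ) ^ k) +
      (if (d : ℝ) ≤ √(N : ℝ) then C ^ k * √(N : ℝ) ^ k else 0) +
      (if ¬ GoodC δ d then C ^ k * √(N : ℝ) ^ k else 0) := by
    intro d hd
    obtain ⟨hd2, hdN, hds⟩ := hT d hd
    obtain ⟨hf, hx⟩ := hK d hd
    have hdN' : (d : ℝ) ≤ N := by exact_mod_cast hdN
    have ht := htriv (K d) d (by omega) hds hf hx
    have hs : √(d : ℝ) ≤ √(N : ℝ) := Real.sqrt_le_sqrt hdN'
    have h0 : (0 : ℝ) ≤ (classNumber (K d) : ℝ) := by positivity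
    have ht2 : (classNumber (K d) : ℝ) ^ k ≤ C ^ k * √(N : ℝ) ^ k := by
      rw [← mul_pow]
      apply pow_le_pow_left₀ h0
      exact ht.trans (mul_le_mul_of_nonneg_left hs (by linarith))
    have p1 : 0 ≤ c2 ^ k * (√(N : ℝ) ^ k / (L ^ θ) ^ k) := by positivity
    have p2 : 0 ≤ C ^ k * √(N : ℝ) ^ k := by positivity
    by_cases hsm : (d : ℝ) ≤ √(N : ℝ)
    · rw [if_pos hsm]
      split_ifs <;> linarith
    · rw [if_neg hsm]
      by_cases hg : GoodC δ d
      · rw [if_neg (not_not.2 hg)]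
        push Not at hsm
        have h3 := hg (K d) hf hx
        have hd0 : (0 : ℝ) < d := by exact_mod_cast (by omega : 0 < d)
        have hl2 : L / 2 ≤ Real.log d := by
          have := Real.log_le_log (Real.sqrt_pos.2 hN0) hsm.le
          rwa [Real.log_sqrt hN0.le] at this
        have h4 : (L / 2) ^ θ ≤ Real.log d ^ θ :=
          Real.rpow_le_rpow (by positivity) hl2 (by rw [hθ]; linarith)
        have h5 : (L / 2) ^ θ = L ^ θ / c2 := by
          rw [hc2, Real.div_rpow hL0.le (by norm_num)]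
        have h6 : (classNumber (K d) : ℝ) ≤ c2 * (√(N : ℝ) / L ^ θ) := by
          calc (classNumber (K d) : ℝ) ≤ √(d : ℝ) / Real.log d ^ θ := h3
            _ ≤ √(N : ℝ) / (L ^ θ / c2) := by
                rw [← h5]
                exact div_le_div₀ hsN hs (by rw [h5]; positivity) h4
            _ = c2 * (√(N : ℝ) / L ^ θ) := by field_simp
        have h7 := pow_le_pow_left₀ h0 h6 k
        rw [mul_pow, div_pow] at h7
        linarith
      · rw [if_pos hg]
        linarith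
  refine (Finset.sum_le_sum hpt).trans ?_
  rw [Finset.sum_add_distrib, Finset.sum_add_distrib, Finset.sum_const, nsmul_eq_mul,
    ← Finset.sum_filter, ← Finset.sum_filter, Finset.sum_const, Finset.sum_const, nsmul_eq_mul,
    nsmul_eq_mul]
  have hcA : ((T.filter (fun d : ℕ => (d : ℝ) ≤ √(N : ℝ))).card : ℝ) ≤ √(N : ℝ) := by
    have h1 : T.filter (fun d : ℕ => (d : ℝ) ≤ √(N : ℝ)) ⊆ Finset.Ioc 0 ⌊√(N : ℝ)⌋₊ := by
      intro d hd
      rw [Finset.mem_filter] at hd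
      rw [Finset.mem_Ioc]
      exact ⟨by have := (hT d hd.1).1; omega, Nat.le_floor hd.2⟩
    have h2 := Finset.card_le_card h1
    rw [Nat.card_Ioc, Nat.sub_zero] at h2
    calc ((T.filter (fun d : ℕ => (d : ℝ) ≤ √(N : ℝ))).card : ℝ) ≤ ⌊√(N : ℝ)⌋₊ := by exact_mod_cast h2
      _ ≤ √(N : ℝ) := Nat.floor_le hsN
  have hcB : ((T.filter (fun d => ¬ GoodC δ d)).card : ℝ) ≤ M * N * E := by
    refine le_trans ?_ (hexc N hN)
    have : T.filter (fun d => ¬ GoodC δ d) ⊆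
        (Finset.Icc 2 N).filter (fun d => Squarefree d ∧ ¬ GoodC δ d) := by
      intro d hd
      rw [Finset.mem_filter] at hd
      rw [Finset.mem_filter, Finset.mem_Icc]
      have := hT d hd.1
      exact ⟨⟨this.1, this.2.1⟩, this.2.2, hd.2⟩
    exact_mod_cast Finset.card_le_card this
  have p2 : 0 ≤ C ^ k * √(N : ℝ) ^ k := by positivity
  have p3 : 0 ≤ √(N : ℝ) ^ k := by positivity
  have e1 := mul_le_mul_of_nonneg_right hcA p2
  have e2 := mul_le_mul_of_nonneg_right hcB p2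
  have q1 : 0 ≤ (T.card : ℝ) / (L ^ θ) ^ k := by positivity
  have q2 : 0 ≤ (N : ℝ) * E := by positivity
  set S := √(N : ℝ) ^ k with hS
  have hCk : 0 ≤ C ^ k := by positivity
  have hck : 0 ≤ c2 ^ k := by positivity
  calc (T.card : ℝ) * (c2 ^ k * (S / (L ^ θ) ^ k)) +
        ((T.filter (fun d : ℕ => (d : ℝ) ≤ √(N : ℝ))).card : ℝ) * (C ^ k * S) +
        ((T.filter (fun d => ¬ GoodC δ d)).card : ℝ) * (C ^ k * S)
      ≤ (T.card : ℝ) * (c2 ^ k * (S / (L ^ θ) ^ k)) + √(N : ℝ) * (C ^ k * S) +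
        M * N * E * (C ^ k * S) := by linarith
    _ = S * (c2 ^ k * ((T.card : ℝ) / (L ^ θ) ^ k) + C ^ k * √(N : ℝ) +
        C ^ k * M * (N * E)) := by ring
    _ ≤ S * ((C ^ k * (1 + M) + c2 ^ k) * ((T.card : ℝ) / (L ^ θ) ^ k + √(N : ℝ) + N * E)) := by
        apply mul_le_mul_of_nonneg_left _ p3
        have r1 := mul_nonneg hCk q1
        have r2 := mul_nonneg (mul_nonneg hCk hM) q1
        have r3 := mul_nonneg (mul_nonneg hCk hM) hsN
        have r4 := mul_nonneg hCk q2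
        have r5 := mul_nonneg hck hsN
        have r6 := mul_nonneg hck q2
        nlinarith
    _ = _ := by ring

theorem pi_le (N : ℕ) (hN : 2 ≤ N) :
    (((Finset.Icc 2 N).filter Nat.Prime).card : ℝ) ≤ 5 * N / Real.log N := by
  have hNr : (2 : ℝ) ≤ N := by exact_mod_cast hN
  have hN0 : (0 : ℝ) < N := by linarith
  have hL0 : 0 < Real.log N := Real.log_pos (by linarith)
  have h1 := Chebyshev.pi_le_log4_mul_div (x := (N : ℝ)) (by linarith)
  rw [Nat.floor_natCast, Real.log_sqrt hN0.le] at h1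
  have hc : ((Finset.Icc 2 N).filter Nat.Prime).card = Nat.primeCounting N := by
    rw [Nat.primeCounting, Nat.primeCounting', Nat.count_eq_card_filter_range]
    congr 1
    ext p
    simp only [Finset.mem_filter, Finset.mem_Icc, Finset.mem_range]
    constructor
    · rintro ⟨h, hp⟩; exact ⟨by omega, hp⟩
    · rintro ⟨h, hp⟩; exact ⟨⟨hp.two_le, by omega⟩, hp⟩
  rw [hc]
  refine h1.trans ?_
  have h4 : Real.log 4 ≤ 1.4 := by
    have : Real.log 4 = 2 * Real.log 2 := by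
      rw [show (4 : ℝ) = 2 ^ 2 by norm_num, Real.log_pow]; norm_num
    have := Real.log_two_lt_d9
    linarith
  have h5 : √(N : ℝ) * Real.log N ≤ 2 * N := by
    have e1 : Real.log √(N : ℝ) ≤ √(N : ℝ) - 1 :=
      Real.log_le_sub_one_of_pos (Real.sqrt_pos.2 hN0)
    rw [Real.log_sqrt hN0.le] at e1
    have e2 : √(N : ℝ) * √(N : ℝ) = N := Real.mul_self_sqrt hN0.le
    have e3 := Real.sqrt_nonneg (N : ℝ)
    nlinarith
  have e4 : Real.log 4 * (N : ℝ) / (Real.log N / 2) = 2 * Real.log 4 * N / Real.log N := by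
    field_simp
  rw [e4, le_div_iff₀ hL0, add_mul, div_mul_cancel₀ _ hL0.ne']
  nlinarith

/-- moments over the primes -/
theorem mom_primes (δ : ℝ) (hδ : 0 < δ) (hδ2 : δ < 1 / 2) (k : ℕ) : ∃ C : ℝ, 0 ≤ C ∧
    ∀ N : ℕ, 2 ≤ N → ∀ (K : ℕ → Type) [∀ d, Field (K d)] [∀ d, NumberField (K d)],
    (∀ p, p.Prime → Module.finrank ℚ (K p) = 2 ∧ ∃ x : K p, x ^ 2 = (p : K p)) →
    ∑ p ∈ (Finset.Icc 2 N).filter Nat.Prime, (classNumber (K p) : ℝ) ^ k ≤
      C * (N : ℝ) ^ (1 + (k : ℝ) / 2) / Real.log N ^ (1 + (k : ℝ) * (3 / 2 - δ)) := by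
  obtain ⟨C, hC, h⟩ := mom δ hδ hδ2 k
  set A : ℝ := 1 + (k : ℝ) * (3 / 2 - δ) with hA
  have hA0 : 0 ≤ A := by
    have : 0 ≤ (k : ℝ) * (3 / 2 - δ) := mul_nonneg (by positivity) (by linarith)
    linarith
  obtain ⟨K1, hK1, hk1⟩ := pow_exp (c := δ / 16) hA0 (by linarith)
  obtain ⟨K2, hK2, hk2⟩ := pow_exp (c := 1) hA0 (by norm_num)
  set c2 : ℝ := (2 : ℝ) ^ A with hc2
  have hc2p : 0 < c2 := Real.rpow_pos_of_pos (by norm_num) _
  refine ⟨C * (5 + c2 * K2 + K1), by positivity, ?_⟩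
  intro N hN K _ _ hK
  have hNr : (2 : ℝ) ≤ N := by exact_mod_cast hN
  have hN0 : (0 : ℝ) < N := by linarith
  have hL0 : 0 < Real.log N := Real.log_pos (by linarith)
  have h1 := h N hN ((Finset.Icc 2 N).filter Nat.Prime) (by
    intro d hd
    rw [Finset.mem_filter, Finset.mem_Icc] at hd
    exact ⟨hd.1.1, hd.1.2, hd.2.squarefree⟩) K (by
    intro d hd
    rw [Finset.mem_filter] at hd
    exact hK d hd.2)
  refine h1.trans ?_
  set L : ℝ := Real.log N with hL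
  have hexp : Real.exp L = N := Real.exp_log hN0
  have hLA : 0 < L ^ A := Real.rpow_pos_of_pos hL0 _
  have eA : L ^ A = L * (L ^ (3 / 2 - δ)) ^ k := by
    rw [hA, Real.rpow_add hL0, Real.rpow_one, mul_comm (k : ℝ), Real.rpow_mul hL0.le,
      Real.rpow_natCast]
  have b1 : (((Finset.Icc 2 N).filter Nat.Prime).card : ℝ) / (L ^ (3 / 2 - δ)) ^ k ≤
      5 * N / L ^ A := by
    have q : 0 < (L ^ (3 / 2 - δ)) ^ k := by
      have := Real.rpow_pos_of_pos hL0 (3 / 2 - δ)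
      positivity
    rw [eA, ← div_div]
    exact div_le_div_of_nonneg_right (pi_le N hN) q.le
  have b2 : √(N : ℝ) ≤ c2 * K2 * N / L ^ A := by
    rw [le_div_iff₀ hLA]
    have e1 := hk2 (L / 2) (by positivity)
    rw [Real.rpow_one, Real.div_rpow hL0.le (by norm_num), ← hc2, div_le_iff₀ hc2p] at e1
    have e2 : Real.exp (L / 2) = √(N : ℝ) := by
      rw [← hexp, ← Real.exp_half]
    rw [e2] at e1
    have e3 : √(N : ℝ) * √(N : ℝ) = N := Real.mul_self_sqrt hN0.le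
    calc √(N : ℝ) * L ^ A ≤ √(N : ℝ) * (K2 * √(N : ℝ) * c2) :=
          mul_le_mul_of_nonneg_left e1 (Real.sqrt_nonneg _)
      _ = c2 * K2 * (√(N : ℝ) * √(N : ℝ)) := by ring
      _ = c2 * K2 * N := by rw [e3]
  have b3 : (N : ℝ) * Real.exp (-(L ^ (δ / 16))) ≤ K1 * N / L ^ A := by
    rw [le_div_iff₀ hLA]
    have e1 := hk1 L hL0.le
    have e2 : Real.exp (-(L ^ (δ / 16))) * Real.exp (L ^ (δ / 16)) = 1 := by
      rw [← Real.exp_add]; simp
    calc (N : ℝ) * Real.exp (-(L ^ (δ / 16))) * L ^ A ≤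
          (N : ℝ) * Real.exp (-(L ^ (δ / 16))) * (K1 * Real.exp (L ^ (δ / 16))) :=
          mul_le_mul_of_nonneg_left e1 (by positivity)
      _ = K1 * N * (Real.exp (-(L ^ (δ / 16))) * Real.exp (L ^ (δ / 16))) := by ring
      _ = K1 * N := by rw [e2, mul_one]
  have eN : (N : ℝ) ^ (1 + (k : ℝ) / 2) = √(N : ℝ) ^ k * N := by
    rw [Real.rpow_add hN0, Real.rpow_one, mul_comm, Real.sqrt_eq_rpow, ← Real.rpow_natCast,
      ← Real.rpow_mul hN0.le]
    congr 2
    ring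
  rw [eN]
  have hS : 0 ≤ √(N : ℝ) ^ k := by positivity
  calc C * √(N : ℝ) ^ k * ((((Finset.Icc 2 N).filter Nat.Prime).card : ℝ) /
        (L ^ (3 / 2 - δ)) ^ k + √(N : ℝ) + N * Real.exp (-(L ^ (δ / 16))))
      ≤ C * √(N : ℝ) ^ k * (5 * N / L ^ A + c2 * K2 * N / L ^ A + K1 * N / L ^ A) := by
        apply mul_le_mul_of_nonneg_left _ (by positivity)
        linarith
    _ = C * (5 + c2 * K2 + K1) * (√(N : ℝ) ^ k * N) / L ^ A := by ring

/-- almost all primes -/
theorem primes_tend (δ : ℝ) (hδ : 0 < δ) (hδ2 : δ < 1 / 2) : Tendsto (fun N : ℕ =>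
    (((Finset.Icc 2 N).filter (fun p => p.Prime ∧ ¬ GoodC δ p)).card : ℝ) /
      ((Finset.Icc 2 N).filter Nat.Prime).card) atTop (nhds 0) := by
  obtain ⟨M, hM, hexc⟩ := exc δ hδ hδ2
  obtain ⟨K1, hK1, hk1⟩ := pow_exp (A := 2) (c := δ / 16) (by norm_num) (by linarith)
  have hlim : Tendsto (fun N : ℕ => 4 * M * K1 / Real.log N) atTop (nhds 0) :=
    (tendsto_const_nhds).div_atTop log_tend
  refine squeeze_zero' (Eventually.of_forall fun N => by positivity) ?_ hlim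
  have hlog := log_tend.eventually (eventually_ge_atTop (1 : ℝ))
  filter_upwards [eventually_ge_atTop 16, hlog] with N hN hL1
  have hNr : (16 : ℝ) ≤ N := by exact_mod_cast hN
  have hN0 : (0 : ℝ) < N := by linarith
  set L : ℝ := Real.log N with hL
  have hL0 : 0 < L := by linarith
  have hc : ((Finset.Icc 2 N).filter Nat.Prime).card = Nat.primeCounting N := by
    rw [Nat.primeCounting, Nat.primeCounting', Nat.count_eq_card_filter_range]
    congr 1
    ext p
    simp only [Finset.mem_filter, Finset.mem_Icc, Finset.mem_range]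
    constructor
    · rintro ⟨h, hp⟩; exact ⟨by omega, hp⟩
    · rintro ⟨h, hp⟩; exact ⟨⟨hp.two_le, by omega⟩, hp⟩
  have hpi : (N : ℝ) / (4 * L) ≤ ((Finset.Icc 2 N).filter Nat.Prime).card := by
    rw [hc]
    refine le_trans ?_ (Chebyshev.pi_ge N)
    rw [← hL, ← div_div]
    apply div_le_div_of_nonneg_right _ hL0.le
    have h2 := Real.log_two_gt_d9
    have h3 : Real.log ((N : ℝ) + 1) ≤ 0.4 * N := by
      -- log (N+1) ≤ log 16 + (N+1)/16 - 1
      have e1 : Real.log (((N : ℝ) + 1) / 16) ≤ ((N : ℝ) + 1) / 16 - 1 :=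
        Real.log_le_sub_one_of_pos (by positivity)
      rw [Real.log_div (by positivity) (by norm_num)] at e1
      have e2 : Real.log 16 = 4 * Real.log 2 := by
        rw [show (16 : ℝ) = 2 ^ 4 by norm_num, Real.log_pow]; norm_num
      have e3 := Real.log_two_lt_d9
      linarith
    nlinarith
  have hpos : 0 < (N : ℝ) / (4 * L) := by positivity
  have hnum : (((Finset.Icc 2 N).filter (fun p => p.Prime ∧ ¬ GoodC δ p)).card : ℝ) ≤
      M * N * Real.exp (-(L ^ (δ / 16))) := by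
    refine le_trans ?_ (hexc N (by omega))
    have : (Finset.Icc 2 N).filter (fun p => p.Prime ∧ ¬ GoodC δ p) ⊆
        (Finset.Icc 2 N).filter (fun d => Squarefree d ∧ ¬ GoodC δ d) := by
      intro d hd
      rw [Finset.mem_filter] at hd ⊢
      exact ⟨hd.1, hd.2.1.squarefree, hd.2.2⟩
    exact_mod_cast Finset.card_le_card this
  have h5 : Real.exp (-(L ^ (δ / 16))) ≤ K1 / L ^ 2 := by
    rw [le_div_iff₀ (by positivity)]
    have e1 := hk1 L hL0.le
    have e0 : L ^ (2 : ℝ) = L ^ 2 := by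
      rw [← Real.rpow_natCast]; norm_num
    rw [e0] at e1
    have e2 : Real.exp (-(L ^ (δ / 16))) * Real.exp (L ^ (δ / 16)) = 1 := by
      rw [← Real.exp_add]; simp
    calc Real.exp (-(L ^ (δ / 16))) * L ^ 2 ≤
          Real.exp (-(L ^ (δ / 16))) * (K1 * Real.exp (L ^ (δ / 16))) :=
          mul_le_mul_of_nonneg_left e1 (Real.exp_pos _).le
      _ = K1 * (Real.exp (-(L ^ (δ / 16))) * Real.exp (L ^ (δ / 16))) := by ring
      _ = K1 := by rw [e2, mul_one]
  calc (((Finset.Icc 2 N).filter (fun p => p.Prime ∧ ¬ GoodC δ p)).card : ℝ) /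
      ((Finset.Icc 2 N).filter Nat.Prime).card
      ≤ (M * N * (K1 / L ^ 2)) / ((N : ℝ) / (4 * L)) := by
        apply div_le_div₀ (by positivity) _ hpos hpi
        exact hnum.trans (mul_le_mul_of_nonneg_left h5 (by positivity))
    _ = 4 * M * K1 / L := by
        field_simp

end Pool.Agent.U689.CN
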